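import Pool.Agent.Helper11.TZ.Def
import Pool.Agent.Helper47.T4.Fine
import Pool.Agent.Helper60.CS.Zo

/-! TOP COORDINATE: digits of the top coordinate from the point, from the line, over finer labels; transfer of
unsaturation; hull. -/

set_option autoImplicit false

namespace Pool.Agent.Helper11.TZ

open Finset Filter Topology Matrix MvPolynomial Pool.Agent.Helper69.RK Pool.Agent.Helper31.EC Pool.Agent.Helper40.EL
open Pool.Agent.Helper89.LX Pool.Agent.Helper3.LF Pool.Agent.Helper3.PR Pool.Agent.Helper48.NS Pool.Agent.Helper42.NS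
open Pool.Agent.Helper31.EC.Sp Pool.Agent.Helper60.CS Pool.Agent.Helper47.T4

noncomputable section

section fin

variable {N D : ℕ}

/-- a polynomial bounded on a ball is Lipschitz on the ball -/
theorem pol_lip (c : Mon N D → ℝ) (p y : Fin N → ℝ) {ρ M d : ℝ} (hρ : 0 < ρ) (hM : 0 ≤ M) (hd0 : 0 ≤ d) (hd : d ≤ ρ)
    (h : ∀ z : Fin N → ℝ, (∀ i, |z i - p i| ≤ ρ) → |eval z (pol c)| ≤ M) (hy : ∀ i, |y i - p i| ≤ d) :
    |eval y (pol c) - eval p (pol c)| ≤ Cu D * M * (d / ρ) := by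
  have hCu := Cu_one D
  rcases hd0.eq_or_lt with h0 | h0
  · have e1 : y = p := by
      funext i
      have h1 := hy i
      rw [← h0] at h1
      have h2 := abs_nonneg (y i - p i)
      have h3 : y i - p i = 0 := abs_eq_zero.mp (le_antisymm h1 h2)
      linarith
    rw [e1, sub_self, abs_zero, ← h0, zero_div, mul_zero]
  · obtain ⟨f, hf, hf'⟩ := lin_pol p (fun i => y i - p i) c
    have hfe : ∀ s : ℝ, f.eval s = eval (fun i => p i + s * (y i - p i)) (pol c) := by
      intro s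
      rw [hf', eval_pol]
    have hr : 0 < ρ / d := div_pos hρ h0
    have hder : ∀ s : ℝ, |s| ≤ ρ / d → |f.derivative.eval s| ≤ Cu D * M * (d / ρ) := by
      intro s hs
      have h1 := uni_affine D f hf 1 0 (ρ / d) 1 s M hr le_rfl (by rw [sub_zero, one_mul]; exact hs) (by
        intro j hj
        rw [zero_add, hfe]
        apply h
        intro i
        have h2 := nod_nonneg D j
        have h3 := nod_le D j hj
        have e1 : p i + ρ / d * nod D j * (y i - p i) - p i = ρ / d * nod D j * (y i - p i) := by ring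
        rw [e1, abs_mul, abs_of_nonneg (mul_nonneg hr.le h2)]
        have h4 : ρ / d * nod D j ≤ ρ / d := by
          have := mul_le_mul_of_nonneg_left h3 hr.le
          linarith
        have h5 := mul_le_mul h4 (hy i) (abs_nonneg _) hr.le
        refine h5.trans (le_of_eq ?_)
        field_simp)
      rw [pow_one, one_pow, mul_one, Function.iterate_one] at h1
      have h6 : |f.derivative.eval s| = (d / ρ) * (ρ / d * |f.derivative.eval s|) := by
        field_simp
      rw [h6]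
      have h7 := mul_le_mul_of_nonneg_left h1 (show 0 ≤ d / ρ by positivity)
      linarith
    have h1 : 1 ≤ ρ / d := by
      rw [le_div_iff₀ h0]
      linarith
    obtain ⟨ξ, hξ, hξ'⟩ := exists_hasDerivAt_eq_slope (fun s => f.eval s) (fun s => f.derivative.eval s)
      (show (0 : ℝ) < 1 by norm_num) (f.continuous.continuousOn) (fun x _ => f.hasDerivAt x)
    have e1 : eval y (pol c) = f.eval 1 := by
      rw [hfe]
      congr 2
      funext i
      ring
    have e2 : eval p (pol c) = f.eval 0 := by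
      rw [hfe]
      congr 2
      funext i
      ring
    have e3 : f.eval 1 - f.eval 0 = f.derivative.eval ξ := by
      have : f.derivative.eval ξ = (f.eval 1 - f.eval 0) / (1 - 0) := hξ'
      rw [this]
      ring
    rw [e1, e2, e3]
    apply hder
    rw [abs_of_pos hξ.1]
    linarith [hξ.2]

/-- a polynomial bounded on a window of a line is Lipschitz along the line -/
theorem line_lip {m : ℕ} (c : Mon (m + 1) D → ℝ) (a x : Fin m → ℝ) (t t' : ℝ) {ρ M : ℝ} (hρ : 0 < ρ) (hM : 0 ≤ M)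
    (h : ∀ r, |r - t| ≤ ρ → |eval (pl a x r) (pol c)| ≤ M) (ht : |t' - t| ≤ ρ) :
    |eval (pl a x t') (pol c) - eval (pl a x t) (pol c)| ≤ Cu D * M * (|t' - t| / ρ) := by
  obtain ⟨f, hf, hf'⟩ := lin_pol (Fin.cons 0 a : Fin (m + 1) → ℝ) (Fin.cons 1 x : Fin (m + 1) → ℝ) c
  have hfe : ∀ s : ℝ, f.eval s = eval (pl a x s) (pol c) := by
    intro s
    rw [hf', eval_pol, pl_line]
  have hder : ∀ s : ℝ, |s - t| ≤ ρ → |f.derivative.eval s| ≤ Cu D * M / ρ := by
    intro s hs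
    have h1 := uni_affine D f hf 1 t ρ 1 s M hρ le_rfl (by rw [one_mul]; exact hs) (by
      intro j hj
      rw [hfe]
      apply h
      have h2 := nod_nonneg D j
      have h3 := nod_le D j hj
      have e1 : t + ρ * nod D j - t = ρ * nod D j := by ring
      rw [e1, abs_of_nonneg (mul_nonneg hρ.le h2)]
      have := mul_le_mul_of_nonneg_left h3 hρ.le
      linarith)
    rw [pow_one, one_pow, mul_one, Function.iterate_one] at h1
    rw [le_div_iff₀ hρ]
    linarith
  have h4 := Convex.norm_image_sub_le_of_norm_deriv_le (f := fun s => f.eval s) (s := Metric.closedBall t ρ)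
    (x := t) (y := t') (C := Cu D * M / ρ) (fun s _ => f.differentiable s) (fun s hs => by
      rw [Polynomial.deriv, Real.norm_eq_abs]
      apply hder
      rw [← Real.dist_eq]
      exact hs) (convex_closedBall t ρ) (Metric.mem_closedBall_self hρ.le) (by
      rw [Metric.mem_closedBall, Real.dist_eq]
      exact ht)
  rw [Real.norm_eq_abs, Real.norm_eq_abs] at h4
  rw [← hfe, ← hfe]
  refine h4.trans (le_of_eq ?_)
  ring

end fin

section chg

variable {U : Sp} (Z : ∀ k, Setoid (U.F k).Ω) (e : ℝ) (he : 0 < e)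

/-- digits over a base -/
theorem chg_le2 {m1 m2 m3 : ℕ} (w : U.VV m1) (y : U.VV m2) (z : U.VV m3) (r s t : ℝ)
    (E : ∀ k, (U.F k).Ω → Prop) (hE : Typ E) (K : ℕ → ℝ) (hK : U.Sub K)
    (hh : ∀ᶠ k in UF, ∀ ω ω', (U.F k).μ ω ≠ 0 → (U.F k).μ ω' ≠ 0 → E k ω → E k ω' → Z k ω ω' → (U.F k).Z ω ω' →
      (∀ i, |y.v k ω i - y.v k ω' i| ≤ U.dl s k) → (∀ i, |z.v k ω i - z.v k ω' i| ≤ U.dl t k) →
      ∀ i, |w.v k ω i - w.v k ω' i| ≤ K k * U.dl r k) :
    chgL Z e he (w.dg r) ≤ chgL Z e he (y.dg s ⊔ z.dg t) := by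
  have e0 : ∀ {n : ℕ} (v : U.VV n) (u : ℝ), chgL Z e he (v.dg u) = (v.chg Z e he).dg (u / e) := by
    intro n v u
    rw [VV.chg_dg]
    congr 2
    field_simp
  have e1 : ∀ (u : ℝ) k, (U.chg Z e he).dl (u / e) k = U.dl u k := by
    intro u k
    rw [chg_dl]
    congr 1
    field_simp
  rw [chgL_sup, e0, e0, e0]
  apply VV.dg_le_dg2 (S := U.chg Z e he) _ _ _ _ _ _ E (typ_chg Z e he hE) K (chg_sub Z e he hK)
  filter_upwards [hh] with k hk ω ω' a b c d g g1 g2 i
  rw [e1] at g1 g2 ⊢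
  exact hk ω ω' a b c d g.1 g.2 g1 g2 i

theorem chg_le1 {m1 m2 : ℕ} (w : U.VV m1) (y : U.VV m2) (r s : ℝ)
    (E : ∀ k, (U.F k).Ω → Prop) (hE : Typ E) (K : ℕ → ℝ) (hK : U.Sub K)
    (hh : ∀ᶠ k in UF, ∀ ω ω', (U.F k).μ ω ≠ 0 → (U.F k).μ ω' ≠ 0 → E k ω → E k ω' → Z k ω ω' → (U.F k).Z ω ω' →
      (∀ i, |y.v k ω i - y.v k ω' i| ≤ U.dl s k) → ∀ i, |w.v k ω i - w.v k ω' i| ≤ K k * U.dl r k) :
    chgL Z e he (w.dg r) ≤ chgL Z e he (y.dg s) := by
  have h1 := chg_le2 Z e he w y y r s s E hE K hK (by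
    filter_upwards [hh] with k hk ω ω' a b c d g g' g1 _
    exact hk ω ω' a b c d g g' g1)
  rwa [sup_idem] at h1

end chg

section top

variable {U : Sp} {m D : ℕ} {s : Sys U m} {Z : ∀ k, Setoid (U.F k).Ω} {c η : ℝ} {dir0 : ℕ → Fin m → ℝ}
  {q : ∀ k, (U.F k).Ω → Mon (m + 1) D → ℝ}

/-- the point in terms of the coordinates -/
theorem ptf_zero (s : Sys U m) (k : ℕ) (ω : (U.F k).Ω) : ptf s k ω 0 = s.t.v k ω 0 := rfl

theorem ptf_succ (s : Sys U m) (k : ℕ) (ω : (U.F k).Ω) (i : Fin m) : ptf s k ω i.succ = s.P.v k ω i := rfl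

/-- (T3) LEVEL `b` OF THE TOP COORDINATE from the coordinate `P i0` to level `η + b` and the other coordinates -/
theorem Top.dg_le (hq : Top s Z D c η dir0 q) (K : ℕ → ℝ) (hK : U.Sub K)
    (hKt : Sp.Typ (S := U) (fun k ω => |eval (ptf s k ω) (pol (q k ω))| ≤ K k)) {b : ℝ} (h0 : 0 ≤ b)
    (h1 : η + b ≤ 1) (i0 : Fin m) (e : ℝ) (he : 0 < e) :
    chgL Z e he (TR.dg (zt s q K hK) b) ≤ chgL Z e he (TR.dg (TR.cor s.P i0) (η + b) ⊔ oth s i0) := by
  classical
  obtain ⟨K1, hK1, hT1⟩ := hq.bd (fun _ => 1) (U.Sub_const zero_le_one)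
  -- the other coordinates
  set w : Fin (m + 1) → TR U := Fin.cons (TR.cor s.t 0) (fun j => if j = i0 then 0 else TR.cor s.P j) with hw
  have hw1 : (TR.vec w).dg 1 ≤ oth s i0 := by
    apply TR.vec_dg_le
    intro i
    refine Fin.cases ?_ (fun j => ?_) i
    · rw [hw, Fin.cons_zero]
      exact (TR.cor_dg_le s.t 0 1).trans le_sup_left
    · rw [hw, Fin.cons_succ]
      by_cases hj : j = i0
      · rw [if_pos hj, TR.const_dg (0 : TR U) (Eventually.of_forall fun _ _ _ => rfl)]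
        exact bot_le
      · rw [if_neg hj]
        refine le_trans ?_ le_sup_right
        exact Finset.le_sup (f := fun j => TR.dg (TR.cor s.P j) 1)
          (Finset.mem_filter.mpr ⟨Finset.mem_univ j, hj⟩)
  have key : chgL Z e he (TR.dg (zt s q K hK) b) ≤
      chgL Z e he (TR.dg (TR.cor s.P i0) (η + b) ⊔ (TR.vec w).dg 1) := by
    apply chg_le2 Z e he (TR.vec fun _ : Fin 1 => zt s q K hK) (TR.vec fun _ : Fin 1 => TR.cor s.P i0) (TR.vec w)
      b (η + b) 1 _ (typ_and hKt hT1) (fun k => Cu D * K1 k)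
      ((U.Sub_const (by have := Cu_one D; linarith)).mul hK1)
    filter_upwards [hq.meas, hK1.1] with k hm hK0 ω ω' a a' g g' hZ hU h2 h3 _
    obtain ⟨g1, g2⟩ := g
    obtain ⟨g1', _⟩ := g'
    have e1 : TR.ev (zt s q K hK) k ω = eval (ptf s k ω) (pol (q k ω)) := cut_ev g1
    have e2 : TR.ev (zt s q K hK) k ω' = eval (ptf s k ω') (pol (q k ω')) := cut_ev g1'
    show |TR.ev (zt s q K hK) k ω - TR.ev (zt s q K hK) k ω'| ≤ _
    rw [e1, e2, ← hm ω ω' a a' hZ hU]
    have hρ : 0 < U.dl η k := U.dl_pos η k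
    have hd : 0 < U.dl (η + b) k := U.dl_pos _ k
    have hdd : U.dl (η + b) k ≤ U.dl η k := U.dl_anti (by linarith) k
    have h4 := pol_lip (q k ω) (ptf s k ω) (ptf s k ω') hρ hK0 hd.le hdd (by
      intro z hz
      exact g2 (s.t.v k ω 0) (by
        rw [sub_self, abs_zero, one_mul]
        exact (U.dl_pos c k).le) z (by
        intro i
        rw [one_mul]
        exact hz i)) (by
      intro i
      rw [abs_sub_comm]
      have h5 : U.dl 1 k ≤ U.dl (η + b) k := U.dl_anti h1 k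
      refine Fin.cases ?_ (fun j => ?_) i
      · have h6 := h3 0
        exact h6.trans h5
      · by_cases hj : j = i0
        · rw [hj]
          exact h2 0
        · have h6 := h3 j.succ
          have e3 : ∀ ω, (TR.vec w).v k ω j.succ = s.P.v k ω j := by
            intro ω
            show TR.ev (w j.succ) k ω = _
            rw [hw, Fin.cons_succ, if_neg hj]
            rfl
          rw [e3, e3] at h6
          exact h6.trans h5)
    rw [abs_sub_comm]
    refine h4.trans (le_of_eq ?_)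
    congr 1
    rw [U.dl_add]
    field_simp
  refine key.trans (chgL_mono Z e he ?_)
  exact sup_le_sup_left hw1 _

/-- LEVEL `b` OF THE TOP COORDINATE from the line and the time to level `c + b` -/
theorem Top.dg_le_line (hq : Top s Z D c η dir0 q) (K : ℕ → ℝ) (hK : U.Sub K)
    (hKt : Sp.Typ (S := U) (fun k ω => |eval (ptf s k ω) (pol (q k ω))| ≤ K k)) {b : ℝ} (h0 : 0 ≤ b)
    (h1 : η + b ≤ 1) (e : ℝ) (he : 0 < e) :
    chgL Z e he (TR.dg (zt s q K hK) b) ≤ chgL Z e he (lA s (c + b)) := by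
  obtain ⟨Kt, hKt', hbt⟩ := s.t.bd
  obtain ⟨K1, hK1, hT1⟩ := hq.bd (fun k => 1 + Kt k) ((U.Sub_const zero_le_one).add hKt')
  have hCu := Cu_one D
  have e0 : ∀ {n : ℕ} (v : U.VV n) (u : ℝ), chgL Z e he (v.dg u) = (v.chg Z e he).dg (u / e) := by
    intro n v u
    rw [VV.chg_dg]
    congr 2
    field_simp
  have e1 : ∀ (u : ℝ) k, (U.chg Z e he).dl (u / e) k = U.dl u k := by
    intro u k
    rw [chg_dl]
    congr 1
    field_simp
  show chgL Z e he ((TR.vec fun _ : Fin 1 => zt s q K hK).dg b) ≤ chgL Z e he ((s.a.dg 1 ⊔ s.x.dg 1) ⊔ s.t.dg (c + b))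
  rw [chgL_sup, chgL_sup, e0, e0, e0, e0]
  apply VV.dg_le_dg3 (S := U.chg Z e he) _ _ _ _ _ _ _ _ _ (typ_chg Z e he (typ_and hKt hT1))
    (fun k => 2 * (Cu D * K1 k)) (chg_sub Z e he ((U.Sub_const (by norm_num)).mul
      ((U.Sub_const (by linarith)).mul hK1)))
  filter_upwards [hq.meas, hK1.1, hKt'.1, hbt] with k hm hK0 hKt0 hbtk ω ω' a a' g g' hZU h2 h3 h4 i
  rw [e1] at h2 h3 h4 ⊢
  obtain ⟨g1, g2⟩ := g
  obtain ⟨g1', _⟩ := g'
  have f1 : TR.ev (zt s q K hK) k ω = eval (ptf s k ω) (pol (q k ω)) := cut_ev g1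
  have f2 : TR.ev (zt s q K hK) k ω' = eval (ptf s k ω') (pol (q k ω')) := cut_ev g1'
  show |TR.ev (zt s q K hK) k ω - TR.ev (zt s q K hK) k ω'| ≤ _
  rw [f1, f2, ← hm ω ω' a a' hZU.1 hZU.2]
  have hρ : 0 < U.dl c k := U.dl_pos c k
  have ht : |s.t.v k ω' 0 - s.t.v k ω 0| ≤ U.dl (c + b) k := by
    rw [abs_sub_comm]
    exact h4 0
  have htc : |s.t.v k ω' 0 - s.t.v k ω 0| ≤ U.dl c k := ht.trans (U.dl_anti (by linarith) k)
  have hL : (1 : ℝ) ≤ 1 + Kt k := by linarith
  have hzero : ∀ (r : ℝ) (i : Fin (m + 1)), |pl (s.a.v k ω) (s.x.v k ω) r i - pl (s.a.v k ω) (s.x.v k ω) r i| ≤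
      (1 + Kt k) * U.dl η k := by
    intro r i
    rw [sub_self, abs_zero]
    exact mul_nonneg (by linarith) (U.dl_pos η k).le
  have hwin : ∀ r, |r - s.t.v k ω 0| ≤ U.dl c k → |r - s.t.v k ω 0| ≤ (1 + Kt k) * U.dl c k := by
    intro r hr
    have := mul_le_mul_of_nonneg_right hL hρ.le
    linarith
  -- along the line
  have s1 := line_lip (q k ω) (s.a.v k ω) (s.x.v k ω) (s.t.v k ω 0) (s.t.v k ω' 0) hρ hK0
    (fun r hr => g2 r (hwin r hr) _ (hzero r)) htc
  -- the neighbouring line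
  set p := pl (s.a.v k ω) (s.x.v k ω) (s.t.v k ω' 0) with hp
  have hd0 : 0 ≤ (1 + Kt k) * U.dl 1 k := mul_nonneg (by linarith) (U.dl_pos 1 k).le
  have hη1 : U.dl 1 k ≤ U.dl η k := U.dl_anti (by linarith) k
  have s2 := pol_lip (q k ω) p (ptf s k ω') (ρ := (1 + Kt k) * U.dl η k)
    (mul_pos (by linarith) (U.dl_pos η k)) hK0 hd0 (mul_le_mul_of_nonneg_left hη1 (by linarith))
    (fun z hz => g2 _ (hwin _ htc) z hz) (by
      intro j
      have h5 := pl_diff (s.a.v k ω) (s.x.v k ω) (s.a.v k ω') (s.x.v k ω') (s.t.v k ω' 0) (U.dl 1 k) (Kt k)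
        (U.dl_pos 1 k).le (hbtk ω' a' 0) (fun i => by rw [abs_sub_comm]; exact h2 i)
        (fun i => by rw [abs_sub_comm]; exact h3 i) j
      exact h5)
  have hdb : U.dl (c + b) k = U.dl c k * U.dl b k := U.dl_add c b k
  have s1' : Cu D * K1 k * (|s.t.v k ω' 0 - s.t.v k ω 0| / U.dl c k) ≤ Cu D * K1 k * U.dl b k := by
    apply mul_le_mul_of_nonneg_left _ (mul_nonneg (by linarith) hK0)
    rw [div_le_iff₀ hρ, mul_comm, ← hdb]
    exact ht
  have s2' : Cu D * K1 k * ((1 + Kt k) * U.dl 1 k / ((1 + Kt k) * U.dl η k)) ≤ Cu D * K1 k * U.dl b k := by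
    apply mul_le_mul_of_nonneg_left _ (mul_nonneg (by linarith) hK0)
    have h6 : U.dl 1 k ≤ U.dl η k * U.dl b k := by
      rw [← U.dl_add]
      exact U.dl_anti h1 k
    rw [mul_div_mul_left _ _ (by linarith : (1 + Kt k : ℝ) ≠ 0), div_le_iff₀ (U.dl_pos η k), mul_comm]
    exact h6
  have s3 : eval (ptf s k ω) (pol (q k ω)) - eval (ptf s k ω') (pol (q k ω)) =
      -(eval p (pol (q k ω)) - eval (pl (s.a.v k ω) (s.x.v k ω) (s.t.v k ω 0)) (pol (q k ω))) -
      (eval (ptf s k ω') (pol (q k ω)) - eval p (pol (q k ω))) := by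
    show eval (pl (s.a.v k ω) (s.x.v k ω) (s.t.v k ω 0)) (pol (q k ω)) - _ = _
    ring
  rw [s3]
  refine (abs_sub _ _).trans ?_
  rw [abs_neg]
  linarith

/-- level `b` of the top coordinate from the point -/
theorem Top.dg_le_pt (hq : Top s Z D c η dir0 q) (K : ℕ → ℝ) (hK : U.Sub K)
    (hKt : Sp.Typ (S := U) (fun k ω => |eval (ptf s k ω) (pol (q k ω))| ≤ K k)) {b : ℝ} (h0 : 0 ≤ b)
    (h1 : η + b ≤ 1) (e : ℝ) (he : 0 < e) :
    chgL Z e he (TR.dg (zt s q K hK) b) ≤ chgL Z e he (lB s) := by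
  rcases Nat.eq_zero_or_pos m with hm | hm
  · subst hm
    obtain ⟨K1, hK1, hT1⟩ := hq.bd (fun k => 1) (U.Sub_const zero_le_one)
    have h2 : chgL Z e he (TR.dg (zt s q K hK) b) ≤ chgL Z e he (s.t.dg 1) := by
      apply chg_le1 Z e he (TR.vec fun _ : Fin 1 => zt s q K hK) s.t b 1 _ (typ_and hKt hT1)
        (fun k => Cu D * K1 k) ((U.Sub_const (by have := Cu_one D; linarith)).mul hK1)
      filter_upwards [hq.meas, hK1.1] with k hm hK0 ω ω' a a' g g' hZ hU h3 _
      obtain ⟨g1, g2⟩ := g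
      obtain ⟨g1', _⟩ := g'
      have e1 : TR.ev (zt s q K hK) k ω = eval (ptf s k ω) (pol (q k ω)) := cut_ev g1
      have e2 : TR.ev (zt s q K hK) k ω' = eval (ptf s k ω') (pol (q k ω')) := cut_ev g1'
      show |TR.ev (zt s q K hK) k ω - TR.ev (zt s q K hK) k ω'| ≤ _
      rw [e1, e2, ← hm ω ω' a a' hZ hU]
      have hρ : 0 < U.dl η k := U.dl_pos η k
      have hd : 0 < U.dl (η + b) k := U.dl_pos _ k
      have hdd : U.dl (η + b) k ≤ U.dl η k := U.dl_anti (by linarith) k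
      have h4 := pol_lip (q k ω) (ptf s k ω) (ptf s k ω') hρ hK0 hd.le hdd (by
        intro z hz
        exact g2 (s.t.v k ω 0) (by
          rw [sub_self, abs_zero, one_mul]
          exact (U.dl_pos c k).le) z (by
          intro i
          rw [one_mul]
          exact hz i)) (by
        intro i
        rw [abs_sub_comm]
        have h5 : U.dl 1 k ≤ U.dl (η + b) k := U.dl_anti h1 k
        refine Fin.cases ?_ (fun j => j.elim0) i
        have h6 := h3 0
        exact h6.trans h5)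
      rw [abs_sub_comm]
      refine h4.trans (le_of_eq ?_)
      congr 1
      rw [U.dl_add]
      field_simp
    exact h2.trans (chgL_mono Z e he le_sup_right)
  · refine (hq.dg_le K hK hKt h0 h1 ⟨0, hm⟩ e he).trans (chgL_mono Z e he ?_)
    refine sup_le ?_ (sup_le le_sup_right ?_)
    · exact (TR.cor_dg_le s.P _ _).trans ((s.P.dg_mono h1).trans le_sup_left)
    · apply Finset.sup_le
      intro j _
      exact (TR.cor_dg_le s.P j 1).trans le_sup_left

end top

section kap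

variable {S : Sp} {m D : ℕ}

/-- over a maximal double Markov label the two sides have nothing in common -/
theorem bot_of_common {A B : S.L} {l : Lab S} {c : ℝ} {hc : 0 < c} (hl : l.IsMaxL A B) (Y : (l.ovr c hc).L)
    (hA : Y ≤ l.upL c hc A) (hB : Y ≤ l.upL c hc B) : Y = ⊥ := by
  set l2 : Lab (l.ovr c hc) := fun k => ⟨(FLab.triv ((l.ovr c hc).F k)).T, (FLab.triv ((l.ovr c hc).F k)).p,
    (FLab.triv ((l.ovr c hc).F k)).hn, (rpo Y).1 k⟩ with hl2
  have hv : ∀ k, (l2 k).v = (l2 k).p.map (rp Y k) := fun k => rfl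
  have hleak : ∀ (C : (l.ovr c hc).L), Y ≤ C → Nul (l.ovr c hc) (fun k => (l2 k).leak (rp C k)) := by
    intro C hC
    apply (rp_mono hC).of_le (Eventually.of_forall fun _ => FLab.leak_nonneg _ _)
    refine Eventually.of_forall fun k => ?_
    have h1 : (l2 k).leak (rp C k) ≤ h (l2 k).v ((l2 k).p.map (rp C k)) := I_le_h_left _ _ _
    rw [hv, (l2 k).p.h_map] at h1
    exact h1
  have h1 := hl.triv l2 ⟨hleak _ hA, hleak _ hB⟩
  have h2 : ∀ k, (l2 k).info = h (rp Y k) (⊥ : FL ((l.ovr c hc).F k)) := by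
    intro k
    show I (l2 k).v (l2 k).p.top ⊥ = _
    rw [hv, I_eq, h_zero (((l2 k).p.map_le_top _).trans le_sup_left), sub_zero,
      ← (l2 k).p.map_bot, (l2 k).p.h_map]
  have h3 : hr (rp Y) (fun k => (⊥ : FL ((l.ovr c hc).F k))) = 0 := by
    have e1 : l2.info = hr (rp Y) (fun k => (⊥ : FL ((l.ovr c hc).F k))) := by
      show ul (fun k => (l2 k).info / ((l.ovr c hc).F k).n) = ul _
      congr 1
      funext k
      rw [h2]
    rw [← e1]
    exact h1
  have h4 : PLe (rp Y) (fun k => (⊥ : FL ((l.ovr c hc).F k))) := PLe_of_hr (rp_Bd Y) h3.le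
  have h5 : PLe (rp Y) (rp (⊥ : (l.ovr c hc).L)) := h4.trans (PLe_of_le fun _ => bot_le)
  exact le_antisymm (PLe_rp.mp h5) bot_le

/-- (T5) LEVEL `b` OF THE TOP COORDINATE of the window `c` is known to every maximal label of a window `c' ≥ c + b`
which is finer than the base -/
theorem Top.bot {s : Sys S m} {c c' η : ℝ} {l : Lab S} (hl : IsKap s c' l) {Z : ∀ k, Setoid (l.sp.F k).Ω}
    (hZ : Fin2 (S := l.sp) Z l.V) {dir0 : ℕ → Fin m → ℝ} {q : ∀ k, (l.sp.F k).Ω → Mon (m + 1) D → ℝ}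
    (hq : Top (s.pull l.pj) Z D c η dir0 q) (K : ℕ → ℝ) (hK : l.sp.Sub K)
    (hKt : Sp.Typ (S := l.sp) (fun k ω => |eval (ptf (s.pull l.pj) k ω) (pol (q k ω))| ≤ K k)) {b : ℝ}
    (h0 : 0 ≤ b) (h1 : η + b ≤ 1) (hc : c + b ≤ c') (e : ℝ) (he : 0 < e) :
    chgL (S := l.sp) l.V e he (TR.dg (zt (s.pull l.pj) q K hK) b) = ⊥ := by
  have h2 := nest_le hZ he (hq.dg_le_line K hK hKt h0 h1 e he)
  have h3 := nest_le hZ he (hq.dg_le_pt K hK hKt h0 h1 e he)
  apply bot_of_common (c := e) (hc := he) (IsKap_iff.mp hl)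
  · refine h2.trans ?_
    have e1 : l.pj.map (lA s c') = lA (s.pull l.pj) c' := by
      unfold lA Sys.xi
      rw [l.pj.map_sup, l.pj.map_sup, l.pj.map_dg, l.pj.map_dg, l.pj.map_dg]
      rfl
    show _ ≤ chgL (S := l.sp) l.V e he (l.pj.map (lA s c'))
    rw [e1]
    exact chgL_mono l.V e he (sup_le_sup_left ((s.pull l.pj).t.dg_mono hc) _)
  · refine h3.trans (le_of_eq ?_)
    have e1 : l.pj.map (lB s) = lB (s.pull l.pj) := by
      unfold lB Sys.T
      rw [l.pj.map_sup, l.pj.map_dg, l.pj.map_dg]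
      rfl
    show _ = chgL (S := l.sp) l.V e he (l.pj.map (lB s))
    rw [e1]

end kap

section uns

variable {U : Sp} {m D : ℕ} {s : Sys U m} {Z Z' : ∀ k, Setoid (U.F k).Ω} {c c' η η' : ℝ}
  {q : ∀ k, (U.F k).Ω → Mon (m + 1) D → ℝ} {i0 : Fin m}

/-- comparison of conditional entropies -/
theorem h_cross {L : Type*} [PM L] {x y x' y' w : L} (h1 : x ≤ x' ⊔ w) (h2 : y' ≤ y ⊔ w) :
    h x (y ⊔ w) ≤ h x' (y' ⊔ w) := by
  have h3 : h x (y ⊔ w) ≤ h x' (y ⊔ w) := by
    have h4 := h_triangle x x' (y ⊔ w)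
    have h5 : h x (x' ⊔ (y ⊔ w)) = 0 := h_zero (h1.trans (sup_le le_sup_left (le_sup_right.trans le_sup_right)))
    linarith
  exact h3.trans (h_anti (sup_le h2 le_sup_right))

/-- (T6) TRANSFER OF UNSATURATION from the coordinate `P i0` to the top coordinate, given the other coordinates, on all
events of all extensions -/
theorem Top.un (hT4 : ST_T4 m D) (hq : Top s Z D c η (fun _ => Pi.single i0 1) q) (hη : 0 ≤ η) (hη1 : η < 1)
    (K : ℕ → ℝ) (hK : U.Sub K)
    (hKt : Sp.Typ (S := U) (fun k ω => |eval (ptf s k ω) (pol (q k ω))| ≤ K k)) {a b : ℝ} (h0 : 0 ≤ a)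
    (hab : a ≤ b) (h1 : η + b ≤ 1) (e : ℝ) (he : 0 < e) {T : Sp} (p : Pj T (U.chg Z e he))
    (E : ∀ k, (T.F k).Ω → Prop) (hE : 0 < ul (T.pr E)) :
    h (restL E hE (p.map (chgL Z e he (TR.dg (zt s q K hK) b))))
      (restL E hE (p.map (chgL Z e he (TR.dg (zt s q K hK) a ⊔ oth s i0)))) ≤
    h (restL E hE (p.map (chgL Z e he (TR.dg (TR.cor s.P i0) (η + b)))))
      (restL E hE (p.map (chgL Z e he (TR.dg (TR.cor s.P i0) (η + a) ⊔ oth s i0)))) := by
  have h2 := hq.dg_le K hK hKt (h0.trans hab) h1 i0 e he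
  have h3 := hT4 U s Z c η i0 q hq hη hη1 K hK hKt a h0 (by linarith) e he
  have key : ∀ x : (U.chg Z e he).L, ∀ y : (U.chg Z e he).L, x ≤ y →
      restL E hE (p.map x) ≤ restL E hE (p.map y) := fun x y hxy => restL_mono E hE (p.map_mono hxy)
  rw [chgL_sup, chgL_sup, p.map_sup, p.map_sup, restL_sup, restL_sup]
  apply h_cross
  · have h4 := key _ _ h2
    rwa [chgL_sup, p.map_sup, restL_sup] at h4
  · have h4 := key _ _ h3
    rwa [chgL_sup, p.map_sup, restL_sup] at h4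

/-- (T7) HULL: over the label of the window `c'` the first digits of the top coordinate of the window `c` are known
from the other coordinates -/
theorem Top.kn {D' : ℕ} (hT4 : ST_T4 m D') {q' : ∀ k, (U.F k).Ω → Mon (m + 1) D' → ℝ} {dir0 : ℕ → Fin m → ℝ}
    (hZ : Fin2 Z Z') (hq : Top s Z D c η dir0 q) (hq' : Top s Z' D' c' η' (fun _ => Pi.single i0 1) q')
    (hη : 0 ≤ η') (hη1 : η' < 1) (hh : η ≤ η') (K : ℕ → ℝ) (hK : U.Sub K)
    (hKt : Sp.Typ (S := U) (fun k ω => |eval (ptf s k ω) (pol (q k ω))| ≤ K k)) (e : ℝ) (he : 0 < e) :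
    chgL Z' e he (TR.dg (zt s q K hK) (η' - η)) ≤ chgL Z' e he (oth s i0) := by
  obtain ⟨K1, hK1, hT1⟩ := hq'.bd (fun _ => 1) (U.Sub_const zero_le_one)
  have hKt' : Sp.Typ (S := U) (fun k ω => |eval (ptf s k ω) (pol (q' k ω))| ≤ K1 k) := by
    refine typ_mono hT1 (Eventually.of_forall fun k ω _ h2 => ?_)
    exact h2 (s.t.v k ω 0) (by
      rw [sub_self, abs_zero, one_mul]
      exact (U.dl_pos c' k).le) _ (fun i => by
      show |ptf s k ω i - ptf s k ω i| ≤ _
      rw [sub_self, abs_zero, one_mul]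
      exact (U.dl_pos η' k).le)
  have h2 := nest_le hZ he (hq.dg_le K hK hKt (b := η' - η) (by linarith) (by linarith) i0 e he)
  have h3 := hT4 U s Z' c' η' i0 q' hq' hη hη1 K1 hK1 hKt' 0 le_rfl (by linarith) e he
  have e1 : TR.dg (zt s q' K1 hK1) 0 = ⊥ := (TR.vec (fun _ : Fin 1 => zt s q' K1 hK1)).dg_nonpos le_rfl
  rw [e1, bot_sup_eq, add_zero] at h3
  rw [show η + (η' - η) = η' by ring, chgL_sup] at h2
  exact h2.trans (sup_le h3 le_rfl)

end uns

section stab

variable {U : Sp} {m D : ℕ} {s : Sys U m} {Z Z' : ∀ k, Setoid (U.F k).Ω} {c η : ℝ} {dir0 : ℕ → Fin m → ℝ}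
  {q : ∀ k, (U.F k).Ω → Mon (m + 1) D → ℝ}

/-- (T1) finer base -/
theorem Top.fin (hq : Top s Z D c η dir0 q) (hZ : Fin2 Z Z') : Top s Z' D c η dir0 q where
  meas := by
    filter_upwards [hq.meas] with k hk ω ω' a a' hZ1 hU
    exact hk ω ω' a a' (hZ k ω ω' a a' hU hZ1) hU
  bd := hq.bd
  der := hq.der

/-- (T1) extensions -/
theorem Top.pull {T : Sp} (p : Pj T U) (hq : Top s Z D c η dir0 q) :
    Top (s.pull p) (fun k => Setoid.comap (p.π k) (Z k)) D c η dir0 (fun k ω => q k (p.π k ω)) where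
  meas := by
    filter_upwards [hq.meas] with k hk ω ω' a a' hZ1 hU
    exact hk _ _ (p.supp k ω a) (p.supp k ω' a') hZ1 ((p.hZ k ω ω' a a').mp hU)
  bd := by
    intro L hL
    have hL' : U.Sub L := by
      refine ⟨hL.1, ?_⟩
      refine hL.2.congr fun k => ?_
      rw [p.hn k]
    obtain ⟨K, hK, hT⟩ := hq.bd L hL'
    refine ⟨K, p.sub hK, ?_⟩
    refine typ_mono (p.typ hT) (Eventually.of_forall fun k ω _ h1 r hr y hy => ?_)
    have e1 : ∀ u, T.dl u k = U.dl u k := by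
      intro u
      unfold Sp.dl
      rw [p.hn k]
    rw [e1] at hr
    refine h1 r hr y fun i => ?_
    have h2 := hy i
    rw [e1] at h2
    exact h2
  der := by
    obtain ⟨K, hK, hT⟩ := hq.der
    refine ⟨K, p.sub hK, ?_⟩
    refine typ_mono (p.typ hT) (Eventually.of_forall fun k ω _ h1 => ?_)
    have e1 : ∀ u, T.dl u k = U.dl u k := by
      intro u
      unfold Sp.dl
      rw [p.hn k]
    rw [e1]
    exact h1

/-- typical events stay typical on events of positive probability -/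
theorem typ_rest {F E : ∀ k, (U.F k).Ω → Prop} (hF : Sp.Typ (S := U) F) (hE : 0 < ul (U.pr E)) :
    Sp.Typ (S := U.rest E) F := by
  have h1 : Tendsto (U.pr E) UF (𝓝 (ul (U.pr E))) := ul_tendsto (UB_pr E)
  have h2 : Tendsto (fun k => mass (res (U.F k).μ (fun ω => ¬ F k ω)) / U.pr E k) UF (𝓝 0) := by
    have := Tendsto.div hF h1 hE.ne'
    rwa [zero_div] at this
  refine squeeze_zero' (Eventually.of_forall fun k => Sp.mass_res_nonneg k _) ?_ h2
  filter_upwards [h1.eventually (lt_mem_nhds hE)] with k hk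
  show mass (res ((U.F k).restμ (E k)) (fun ω => ¬ F k ω)) ≤ _
  rw [le_div_iff₀ hk]
  have hk' : (U.F k).pb (E k) ≠ 0 := hk.ne'
  rw [(U.F k).restμ_eq (E k) hk']
  unfold mass
  rw [Finset.sum_mul]
  apply Finset.sum_le_sum
  intro ω _
  classical
  by_cases h3 : F k ω
  · rw [res_neg _ (fun ω => ¬ F k ω) ω (fun hc => hc h3), zero_mul]
    exact (U.F k).res_nonneg _ ω
  · rw [res_pos _ (fun ω => ¬ F k ω) ω h3, res_pos _ (fun ω => ¬ F k ω) ω h3]
    have h4 : res (U.F k).μ (E k) ω ≤ (U.F k).μ ω := by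
      by_cases h5 : E k ω
      · rw [res_pos _ _ ω h5]
      · rw [res_neg _ _ ω h5]
        exact (U.F k).nn ω
    have h6 : (U.F k).pb (E k) = U.pr E k := rfl
    rw [h6]
    have h7 : (U.pr E k)⁻¹ * res (U.F k).μ (E k) ω * U.pr E k = res (U.F k).μ (E k) ω := by
      field_simp
    rw [h7]
    exact h4

/-- (T1) events -/
theorem Top.rest (hq : Top s Z D c η dir0 q) (E : ∀ k, (U.F k).Ω → Prop) (hE : 0 < ul (U.pr E)) :
    Top (s.rest E hE) Z D c η dir0 q where
  meas := by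
    filter_upwards [hq.meas] with k hk ω ω' a a' hZ1 hU
    exact hk ω ω' ((U.F k).rest_supp (E k) ω a).1 ((U.F k).rest_supp (E k) ω' a').1 hZ1 hU
  bd := by
    intro L hL
    obtain ⟨K, hK, hT⟩ := hq.bd L hL
    exact ⟨K, hK, typ_rest hT hE⟩
  der := by
    obtain ⟨K, hK, hT⟩ := hq.der
    exact ⟨K, hK, typ_rest hT hE⟩

end stab

end

end Pool.Agent.Helper11.TZ
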