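import Pool.Agent.Helper48.NS.Dle
import Pool.Agent.Helper3.PR.Ful
import Pool.Agent.Helper31.EC.Quo

/-! TOP COORDINATE (case A): a label measurable polynomial `q` of the window `c` with the thickness `η`; pointwise
estimates for the rows of a form which dominates its derivatives. -/

set_option autoImplicit false

namespace Pool.Agent.Helper11.TZ

open Finset Filter Topology Matrix MvPolynomial Pool.Agent.Helper69.RK Pool.Agent.Helper31.EC Pool.Agent.Helper40.EL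
open Pool.Agent.Helper89.LX Pool.Agent.Helper3.LF Pool.Agent.Helper3.PR Pool.Agent.Helper48.NS Pool.Agent.Helper42.NS
open Pool.Agent.Helper95.LF (PdM)

noncomputable section

/-- TOP POLYNOMIAL of the system `s` over the base `Z`, window `c`, thickness `η`, direction `e`: a function of the base;
bounded along the window of the line, also on balls of radius `2 ^ (-η n)`; derivative in the direction `e` of
size `2 ^ (η n)` at the point. -/
structure Top {U : Sp} {m : ℕ} (s : Sys U m) (Z : ∀ k, Setoid (U.F k).Ω) (D : ℕ) (c η : ℝ) (e : ℕ → Fin m → ℝ)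
    (q : ∀ k, (U.F k).Ω → Mon (m + 1) D → ℝ) : Prop where
  meas : ∀ᶠ k in UF, ∀ ω ω', (U.F k).μ ω ≠ 0 → (U.F k).μ ω' ≠ 0 → Z k ω ω' → (U.F k).Z ω ω' → q k ω = q k ω'
  bd : ∀ L : ℕ → ℝ, U.Sub L → ∃ K : ℕ → ℝ, U.Sub K ∧ Sp.Typ (S := U) (fun k ω =>
    ∀ r, |r - s.t.v k ω 0| ≤ L k * U.dl c k → ∀ y : Fin (m + 1) → ℝ,
      (∀ i, |y i - pl (s.a.v k ω) (s.x.v k ω) r i| ≤ L k * U.dl η k) → |eval y (pol (q k ω))| ≤ K k)
  der : ∃ K : ℕ → ℝ, U.Sub K ∧ Sp.Typ (S := U) (fun k ω =>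
    1 ≤ K k * (U.dl η k * |eval (ptf s k ω) (dir (e k) (pol (q k ω)))|))

section fin

variable {N D : ℕ}

theorem rws_qf {A : Matrix (Mon N D) (Mon N D) ℝ} (h : PdM A) (w : Mon N D → ℝ) :
    qf A w = ∑ k, (rws A k ⬝ᵥ w) ^ 2 := by
  have h1 : A = (rws A).transpose * rws A := by
    unfold rws
    rw [dif_pos h]
    exact (exists_rows A h).choose_spec.1
  have h2 : qf A w = w ⬝ᵥ (((rws A).transpose * rws A) *ᵥ w) := by
    rw [← h1]; rfl
  rw [h2, qf_rows]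

theorem qf_add_le {ι : Type} [Fintype ι] {A : Matrix ι ι ℝ} (hA : Psd A) (u v : ι → ℝ) :
    qf A (u + v) ≤ 2 * qf A u + 2 * qf A v := by
  have h1 := hA.2 (u - v)
  have e1 : qf A (u + v) = qf A u + qf A v + (u ⬝ᵥ (A *ᵥ v) + v ⬝ᵥ (A *ᵥ u)) := by
    unfold qf
    rw [Matrix.mulVec_add, dotProduct_add, add_dotProduct, add_dotProduct]
    ring
  have e2 : qf A (u - v) = qf A u + qf A v - (u ⬝ᵥ (A *ᵥ v) + v ⬝ᵥ (A *ᵥ u)) := by
    unfold qf
    rw [Matrix.mulVec_sub, dotProduct_sub, sub_dotProduct, sub_dotProduct]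
    ring
  linarith

theorem qf_smul {ι : Type} [Fintype ι] (A : Matrix ι ι ℝ) (c : ℝ) (u : ι → ℝ) : qf A (c • u) = c ^ 2 * qf A u := by
  unfold qf
  rw [Matrix.mulVec_smul, dotProduct_smul, smul_dotProduct, smul_eq_mul, smul_eq_mul]
  ring

theorem qf_sum_le {ι : Type} [Fintype ι] {A : Matrix ι ι ℝ} (hA : Psd A) {κ : Type} (s : Finset κ)
    (u : κ → ι → ℝ) (c : ℝ) (h : ∀ i ∈ s, qf A (u i) ≤ c) : qf A (∑ i ∈ s, u i) ≤ 2 ^ s.card * (s.card * c) := by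
  classical
  induction s using Finset.induction_on with
  | empty =>
    have : qf A (∑ i ∈ (∅ : Finset κ), u i) = 0 := by
      rw [Finset.sum_empty]
      unfold qf
      simp
    rw [this]
    simp
  | insert a s ha ih =>
    rw [Finset.sum_insert ha]
    have h1 := ih fun i hi => h i (Finset.mem_insert_of_mem hi)
    have h2 := h a (Finset.mem_insert_self a s)
    have h3 := qf_add_le hA (u a) (∑ i ∈ s, u i)
    have hc : 0 ≤ c := (hA.2 (u a)).trans h2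
    rw [Finset.card_insert_of_notMem ha]
    have h4 : (1 : ℝ) ≤ 2 ^ s.card := one_le_pow₀ (by norm_num)
    have h5 : (0 : ℝ) ≤ s.card := Nat.cast_nonneg _
    push_cast
    rw [pow_succ]
    nlinarith [mul_nonneg (mul_nonneg (by linarith : (0 : ℝ) ≤ 2 ^ s.card) h5) hc, mul_le_mul_of_nonneg_right h4 hc]

/-- values of a row of a form which dominates its derivatives, small balls -/
theorem row_near {A : Matrix (Mon N D) (Mon N D) ℝ} (hA : PdM A) (hA' : Psd A) (B r C : ℝ) (hr : 0 ≤ r) (hB : 0 ≤ B)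
    (hC : 0 ≤ C) (hT : ∀ (i : Fin N) v, qf A (Tm i *ᵥ v) ≤ B ^ 2 * qf A v) (c : Mon N D → ℝ)
    (hc : ∀ w, (c ⬝ᵥ w) ^ 2 ≤ C ^ 2 * qf A w) (p h : Fin N → ℝ) (hh : ∀ i, |h i| ≤ r) (hK : N * B * r ≤ 1) :
    |c ⬝ᵥ vv (fun k => p k + h k)| ≤ 3 * C * Real.sqrt (qf A (vv p)) := by
  have h1 := gro_A A hA B r hr hB hT p h hh hK
  have h0 : 0 ≤ qf A (vv p) := hA'.2 _
  have h2 : ∀ w, |c ⬝ᵥ w| ≤ C * Real.sqrt (qf A w) := by
    intro w
    have h3 : |c ⬝ᵥ w| = Real.sqrt ((c ⬝ᵥ w) ^ 2) := (Real.sqrt_sq_eq_abs _).symm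
    rw [h3]
    refine (Real.sqrt_le_sqrt (hc w)).trans (le_of_eq ?_)
    rw [Real.sqrt_mul (sq_nonneg _), Real.sqrt_sq hC]
  have h4 : qf A (vv (fun k => p k + h k) - vv p) ≤ 4 * qf A (vv p) := by
    refine h1.trans ?_
    apply mul_le_mul_of_nonneg_right _ h0
    have : 0 ≤ N * B * r := by positivity
    nlinarith
  have h5 : Real.sqrt (qf A (vv (fun k => p k + h k) - vv p)) ≤ 2 * Real.sqrt (qf A (vv p)) := by
    refine (Real.sqrt_le_sqrt h4).trans (le_of_eq ?_)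
    rw [Real.sqrt_mul (by norm_num), show (4 : ℝ) = 2 ^ 2 by norm_num, Real.sqrt_sq (by norm_num)]
  have e1 : c ⬝ᵥ vv (fun k => p k + h k) = c ⬝ᵥ (vv (fun k => p k + h k) - vv p) + c ⬝ᵥ vv p := by
    rw [dotProduct_sub]; ring
  rw [e1]
  refine (abs_add_le _ _).trans ?_
  have h6 := h2 (vv (fun k => p k + h k) - vv p)
  have h7 := h2 (vv p)
  have h8 := mul_le_mul_of_nonneg_left h5 hC
  linarith

/-- values of a row on large balls -/
theorem row_ball {A : Matrix (Mon N D) (Mon N D) ℝ} (hA : PdM A) (hA' : Psd A) (B r R C : ℝ) (hr : 0 < r) (hR : 1 ≤ R)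
    (hB : 0 ≤ B) (hC : 0 ≤ C) (hT : ∀ (i : Fin N) v, qf A (Tm i *ᵥ v) ≤ B ^ 2 * qf A v) (c : Mon N D → ℝ)
    (hc : ∀ w, (c ⬝ᵥ w) ^ 2 ≤ C ^ 2 * qf A w) (p y : Fin N → ℝ) (hy : ∀ i, |y i - p i| ≤ R * r) (hK : N * B * r ≤ 1) :
    |eval y (pol c)| ≤ Cu D * Cm N D * R ^ D * (nn N D * (3 * C)) * Real.sqrt (qf A (vv p)) := by
  have h0 : 0 ≤ qf A (vv p) := hA'.2 _
  have hn1 := nn_one N D
  have hCu := Cu_one D
  have hCm := Cm_one N D
  have h1 := gro_le (pol c) (pol_deg c) r R hr hR p y hy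
  have h2 : ph D (pol c) r p ≤ nn N D * (3 * C * Real.sqrt (qf A (vv p))) ^ 2 := by
    unfold ph
    rw [← card_nodes N D, ← nsmul_eq_mul]
    apply Finset.sum_le_card_nsmul
    intro j _
    rw [eval_pol]
    have h3 : nodp D p r j = fun k => p k + (nodp D p r j k - p k) := by
      funext k; ring
    rw [h3]
    have h4 := row_near hA hA' B r C hr.le hB hC hT c hc p (fun k => nodp D p r j k - p k)
      (fun i => nodp_sub p r hr.le j i) hK
    have h5 := abs_nonneg (c ⬝ᵥ vv (fun k => p k + (nodp D p r j k - p k)))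
    rw [← sq_abs]
    exact pow_le_pow_left₀ h5 h4 2
  have h6 : (eval y (pol c)) ^ 2 ≤ (Cu D * Cm N D * R ^ D * (nn N D * (3 * C)) * Real.sqrt (qf A (vv p))) ^ 2 := by
    refine h1.trans ?_
    have h7 : (Cu D * Cm N D * R ^ D) ^ 2 * ph D (pol c) r p ≤
        (Cu D * Cm N D * R ^ D) ^ 2 * (nn N D * (3 * C * Real.sqrt (qf A (vv p))) ^ 2) :=
      mul_le_mul_of_nonneg_left h2 (sq_nonneg _)
    refine h7.trans ?_
    have h8 : nn N D * (3 * C * Real.sqrt (qf A (vv p))) ^ 2 ≤ nn N D ^ 2 * (3 * C * Real.sqrt (qf A (vv p))) ^ 2 := by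
      apply mul_le_mul_of_nonneg_right _ (sq_nonneg _)
      nlinarith
    calc (Cu D * Cm N D * R ^ D) ^ 2 * (nn N D * (3 * C * Real.sqrt (qf A (vv p))) ^ 2)
        ≤ (Cu D * Cm N D * R ^ D) ^ 2 * (nn N D ^ 2 * (3 * C * Real.sqrt (qf A (vv p))) ^ 2) :=
          mul_le_mul_of_nonneg_left h8 (sq_nonneg _)
      _ = _ := by ring
  have h9 : 0 ≤ Cu D * Cm N D * R ^ D * (nn N D * (3 * C)) * Real.sqrt (qf A (vv p)) := by positivity
  exact abs_le_of_sq_le_sq h6 h9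

end fin

section dirs

variable {m D : ℕ}

theorem Wd_eq (p : Fin (m + 1) → ℝ) (e : Fin m → ℝ) :
    Wd m D p *ᵥ e = ∑ a, e a • (Tm a.succ *ᵥ vv p : Mon (m + 1) D → ℝ) := by
  funext μ
  rw [Finset.sum_apply]
  show ∑ a, Wd m D p μ a * e a = _
  refine Finset.sum_congr rfl fun a _ => ?_
  rw [Pi.smul_apply, smul_eq_mul, ← dd_eq, mul_comm]
  rfl

/-- the gradient form at the nodes and at the point -/
theorem Jf_near {A : Matrix (Mon (m + 1) D) (Mon (m + 1) D) ℝ} (hA : PdM A) (hA' : Psd A) (B r E : ℝ) (hr : 0 ≤ r)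
    (hB : 0 ≤ B) (hT : ∀ (i : Fin (m + 1)) v, qf A (Tm i *ᵥ v) ≤ B ^ 2 * qf A v) (p : Fin (m + 1) → ℝ)
    (e : Fin m → ℝ) (he : ∀ i, |e i| ≤ E) (hK : ((m + 1 : ℕ) : ℝ) * B * r ≤ 1) :
    e ⬝ᵥ (Jf r A p *ᵥ e) ≤ nn (m + 1) D * (2 * qf A (Wd m D p *ᵥ e) +
      2 * (2 ^ m * (m * (E ^ 2 * (B ^ 2 * ((2 * (((m + 1 : ℕ) : ℝ) * B * r)) ^ 2 * qf A (vv p))))))) := by
  rw [Jf_qf, ← card_nodes (m + 1) D, ← nsmul_eq_mul]
  apply Finset.sum_le_card_nsmul
  intro j _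
  have h1 : Wd m D (nodp D p r j) *ᵥ e = Wd m D p *ᵥ e +
      ∑ a, e a • (Tm a.succ *ᵥ (vv (nodp D p r j) - vv p) : Mon (m + 1) D → ℝ) := by
    rw [Wd_eq, Wd_eq, ← Finset.sum_add_distrib]
    refine Finset.sum_congr rfl fun a _ => ?_
    rw [← smul_add, ← Matrix.mulVec_add, add_sub_cancel]
  show qf A (Wd m D (nodp D p r j) *ᵥ e) ≤ _
  rw [h1]
  refine (qf_add_le hA' _ _).trans ?_
  have h2 : qf A (vv (nodp D p r j) - vv p) ≤ (2 * (((m + 1 : ℕ) : ℝ) * B * r)) ^ 2 * qf A (vv p) := by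
    have h3 := gro_A A hA B r hr hB hT p (fun k => nodp D p r j k - p k) (fun i => nodp_sub p r hr j i) hK
    have h4 : (fun k => p k + (nodp D p r j k - p k)) = nodp D p r j := by
      funext k; ring
    rw [h4] at h3
    exact h3
  have h5 := qf_sum_le hA' (Finset.univ : Finset (Fin m))
    (fun a => e a • (Tm a.succ *ᵥ (vv (nodp D p r j) - vv p) : Mon (m + 1) D → ℝ))
    (E ^ 2 * (B ^ 2 * ((2 * (((m + 1 : ℕ) : ℝ) * B * r)) ^ 2 * qf A (vv p)))) (fun a _ => by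
      rw [qf_smul]
      have h6 := hT a.succ (vv (nodp D p r j) - vv p)
      have h7 : qf A (Tm a.succ *ᵥ (vv (nodp D p r j) - vv p)) ≤
          B ^ 2 * ((2 * (((m + 1 : ℕ) : ℝ) * B * r)) ^ 2 * qf A (vv p)) :=
        h6.trans (mul_le_mul_of_nonneg_left h2 (sq_nonneg _))
      have h8 : e a ^ 2 ≤ E ^ 2 := by
        rw [← sq_abs (e a)]
        exact pow_le_pow_left₀ (abs_nonneg _) (he a) 2
      exact mul_le_mul h8 h7 (hA'.2 _) (sq_nonneg _))
  rw [Finset.card_univ, Fintype.card_fin] at h5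
  linarith

end dirs

/-! ### the top coordinate -/

section zt

variable {U : Sp} {m D : ℕ}

open Classical in
/-- a function, cut off at a subexponential bound -/
def cut (K : ℕ → ℝ) (hK : U.Sub K) (f : ∀ k, (U.F k).Ω → ℝ) : TR U :=
  ⟨fun k ω => if |f k ω| ≤ K k then f k ω else 0, by
    refine ⟨K, hK, ?_⟩
    filter_upwards [hK.1] with k hk ω _
    split_ifs with h1
    · exact h1
    · rw [abs_zero]; exact hk⟩

theorem cut_ev {K : ℕ → ℝ} {hK : U.Sub K} {f : ∀ k, (U.F k).Ω → ℝ} {k : ℕ} {ω : (U.F k).Ω} (h : |f k ω| ≤ K k) :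
    TR.ev (cut K hK f) k ω = f k ω := by
  classical
  show (if |f k ω| ≤ K k then f k ω else 0) = _
  rw [if_pos h]

/-- the top coordinate `ζ = q(P)` -/
def zt (s : Sys U m) (q : ∀ k, (U.F k).Ω → Mon (m + 1) D → ℝ) (K : ℕ → ℝ) (hK : U.Sub K) : TR U :=
  cut K hK fun k ω => eval (ptf s k ω) (pol (q k ω))

/-- the height and all coordinates of the point except `P i0` -/
def oth (s : Sys U m) (i0 : Fin m) : U.L :=
  s.T ⊔ ((Finset.univ : Finset (Fin m)).filter (fun j => j ≠ i0)).sup fun j => TR.dg (TR.cor s.P j) 1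

/-- the height and all coordinates of the point except `P i0`, `P i` -/
def oth2 (s : Sys U m) (i0 i : Fin m) : U.L :=
  s.T ⊔ ((Finset.univ : Finset (Fin m)).filter (fun j => j ≠ i0 ∧ j ≠ i)).sup fun j => TR.dg (TR.cor s.P j) 1

variable (m D) in
/-- STATEMENT T4: the coordinate `P i0` from the other coordinates and the top coordinate, over the base -/
def ST_T4 : Prop := ∀ (U : Sp) (s : Sys U m) (Z : ∀ k, Setoid (U.F k).Ω) (c η : ℝ) (i0 : Fin m)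
    (q : ∀ k, (U.F k).Ω → Mon (m + 1) D → ℝ), Top s Z D c η (fun _ => Pi.single i0 1) q → 0 ≤ η → η < 1 →
  ∀ (K : ℕ → ℝ) (hK : U.Sub K), Sp.Typ (S := U) (fun k ω => |eval (ptf s k ω) (pol (q k ω))| ≤ K k) →
  ∀ b : ℝ, 0 ≤ b → η + b ≤ 1 → ∀ (e : ℝ) (he : 0 < e),
    Sp.chgL Z e he (TR.dg (TR.cor s.P i0) (η + b)) ≤ Sp.chgL Z e he (TR.dg (zt s q K hK) b ⊔ oth s i0)

variable (m D) in
/-- STATEMENT DZ: if all coordinates except `P i0` are full over `κ_c` then the optimal form of the window `c` has the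
gradient `2 ^ (η n)` in the direction `P i0` -/
def ST_DZ : Prop := ∀ (S : Sp) (s : Sys S m), RobH s → ∀ c : ℝ, 0 ≤ c → c < eta s D c → eta s D c < 1 →
  ∀ x : ∀ k, FD (S.F k) (Mon (m + 1) D), (gau s D).Opt (cA s c) (cB s) x → ∀ i0 : Fin m,
  (∀ (E : ∀ k, (((lb x).ovr 1 one_pos).F k).Ω → Prop) (hE : 0 < ul (((lb x).ovr 1 one_pos).pr E)) (i : Fin m), i ≠ i0 →
    eta s D c - c ≤ h (Sp.restL E hE ((lb x).upL 1 one_pos (TR.dg (TR.cor s.P i) (eta s D c))))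
      (Sp.restL E hE ((lb x).upL 1 one_pos (oth2 s i0 i)))) →
  ∃ K : ℕ → ℝ, S.Sub K ∧ Sp.Typ (S := (lb x).sp) (fun k (ω : (x k).l.T.Ω) =>
    2 ^ (2 * eta s D c * (S.F k).n) ≤ K k * Jf (S.dl 1 k) ((x k).g ω) (ptf s k ((x k).l.p.π ω)) i0 i0)

end zt

end

end Pool.Agent.Helper11.TZ
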