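import Pool.Agent.Helper11.TZ.T0
import Pool.Agent.Helper11.TZ.T3
import Pool.Agent.Helper35.T4.Main

/-! TOP COORDINATE: the row TOPZ without hypotheses (T4 = helper35). -/

set_option autoImplicit false

namespace Pool.Agent.Helper11.TZ

open Finset Filter Topology Matrix MvPolynomial Pool.Agent.Helper69.RK Pool.Agent.Helper31.EC Pool.Agent.Helper40.EL
open Pool.Agent.Helper89.LX Pool.Agent.Helper3.LF Pool.Agent.Helper3.PR Pool.Agent.Helper48.NS Pool.Agent.Helper42.NS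
open Pool.Agent.Helper31.EC.Sp Pool.Agent.Helper60.CS Pool.Agent.Helper47.T4

noncomputable section

variable {U : Sp} {m D : ℕ} {s : Sys U m} {Z Z' : ∀ k, Setoid (U.F k).Ω} {c c' η η' : ℝ}
  {q : ∀ k, (U.F k).Ω → Mon (m + 1) D → ℝ} {i0 : Fin m}

/-- a bound for the top coordinate -/
theorem Top.exists_bd {dir0 : ℕ → Fin m → ℝ} (hq : Top s Z D c η dir0 q) : ∃ K : ℕ → ℝ, U.Sub K ∧
    Sp.Typ (S := U) (fun k ω => |eval (ptf s k ω) (pol (q k ω))| ≤ K k) := by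
  obtain ⟨K1, hK1, hT1⟩ := hq.bd (fun _ => 1) (U.Sub_const zero_le_one)
  refine ⟨K1, hK1, typ_mono hT1 (Eventually.of_forall fun k ω _ h2 => ?_)⟩
  exact h2 (s.t.v k ω 0) (by
    rw [sub_self, abs_zero, one_mul]
    exact (U.dl_pos c k).le) _ (fun i => by
    show |ptf s k ω i - ptf s k ω i| ≤ _
    rw [sub_self, abs_zero, one_mul]
    exact (U.dl_pos η k).le)

/-- (T4) -/
theorem Top.t4 (hq : Top s Z D c η (fun _ => Pi.single i0 1) q) (hη : 0 ≤ η) (hη1 : η < 1)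
    (K : ℕ → ℝ) (hK : U.Sub K)
    (hKt : Sp.Typ (S := U) (fun k ω => |eval (ptf s k ω) (pol (q k ω))| ≤ K k)) {b : ℝ} (h0 : 0 ≤ b)
    (h1 : η + b ≤ 1) (e : ℝ) (he : 0 < e) :
    chgL Z e he (TR.dg (TR.cor s.P i0) (η + b)) ≤ chgL Z e he (TR.dg (zt s q K hK) b ⊔ oth s i0) :=
  Pool.Agent.Helper35.T4.st_T4 (m := m) (D := D) U s Z c η i0 q hq hη hη1 K hK hKt b h0 h1 e he

/-- (T6) -/
theorem Top.un1 (hq : Top s Z D c η (fun _ => Pi.single i0 1) q) (hη : 0 ≤ η) (hη1 : η < 1)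
    (K : ℕ → ℝ) (hK : U.Sub K)
    (hKt : Sp.Typ (S := U) (fun k ω => |eval (ptf s k ω) (pol (q k ω))| ≤ K k)) {a b : ℝ} (h0 : 0 ≤ a)
    (hab : a ≤ b) (h1 : η + b ≤ 1) (e : ℝ) (he : 0 < e) {T : Sp} (p : Pj T (U.chg Z e he))
    (E : ∀ k, (T.F k).Ω → Prop) (hE : 0 < ul (T.pr E)) :
    h (restL E hE (p.map (chgL Z e he (TR.dg (zt s q K hK) b))))
      (restL E hE (p.map (chgL Z e he (TR.dg (zt s q K hK) a ⊔ oth s i0)))) ≤
    h (restL E hE (p.map (chgL Z e he (TR.dg (TR.cor s.P i0) (η + b)))))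
      (restL E hE (p.map (chgL Z e he (TR.dg (TR.cor s.P i0) (η + a) ⊔ oth s i0)))) :=
  hq.un Pool.Agent.Helper35.T4.st_T4 hη hη1 K hK hKt h0 hab h1 e he p E hE

/-- (T7) -/
theorem Top.kn1 {D' : ℕ} {q' : ∀ k, (U.F k).Ω → Mon (m + 1) D' → ℝ} {dir0 : ℕ → Fin m → ℝ}
    (hZ : Fin2 Z Z') (hq : Top s Z D c η dir0 q) (hq' : Top s Z' D' c' η' (fun _ => Pi.single i0 1) q')
    (hη : 0 ≤ η') (hη1 : η' < 1) (hh : η ≤ η') (K : ℕ → ℝ) (hK : U.Sub K)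
    (hKt : Sp.Typ (S := U) (fun k ω => |eval (ptf s k ω) (pol (q k ω))| ≤ K k)) (e : ℝ) (he : 0 < e) :
    chgL Z' e he (TR.dg (zt s q K hK) (η' - η)) ≤ chgL Z' e he (oth s i0) :=
  hq.kn Pool.Agent.Helper35.T4.st_T4 hZ hq' hη hη1 hh K hK hKt e he

end

end Pool.Agent.Helper11.TZ
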