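import Pool.Agent.Helper11.TZ.Def

/-! TOP COORDINATE: existence of the top polynomial of a window. -/

set_option autoImplicit false

namespace Pool.Agent.Helper11.TZ

open Finset Filter Topology Matrix MvPolynomial Pool.Agent.Helper69.RK Pool.Agent.Helper31.EC Pool.Agent.Helper40.EL
open Pool.Agent.Helper89.LX Pool.Agent.Helper3.LF Pool.Agent.Helper3.PR Pool.Agent.Helper48.NS Pool.Agent.Helper42.NS
open Pool.Agent.Helper95.LF (PdM)

noncomputable section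

variable {S : Sp} {m D : ℕ} {s : Sys S m}

/-- subexponential factors are absorbed by a power -/
theorem sub_dl {K : ℕ → ℝ} (hK : S.Sub K) {δ : ℝ} (hδ : 0 < δ) : ∀ᶠ k in UF, (K k + 2) * S.dl δ k ≤ 1 := by
  filter_upwards [hK.eventually_le hδ] with k hk
  have h1 : S.dl δ k = (2 ^ (δ * (S.F k).n))⁻¹ := by
    unfold Sp.dl
    rw [Real.rpow_neg (by norm_num)]
  rw [h1, mul_inv_le_iff₀ (by positivity), one_mul]
  exact hk

theorem dl_neg_mul (S : Sp) (r : ℝ) (k : ℕ) : S.dl (-r) k * S.dl r k = 1 := by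
  rw [← Sp.dl_add, neg_add_cancel, Sp.dl_zero]

theorem dl_neg_eq (S : Sp) (r : ℝ) (k : ℕ) : S.dl (-r) k = 2 ^ (r * (S.F k).n) := by
  unfold Sp.dl
  rw [neg_mul, neg_neg]

/-- in robust systems the optimal form dominates its derivatives at the scale of the thickness -/
theorem typ_dom (hs : RobH s) {c : ℝ} {x : ∀ k, FD (S.F k) (Mon (m + 1) D)}
    (hx : (gau s D).Opt (cA s c) (cB s) x) : ∃ K : ℕ → ℝ, S.Sub K ∧ (∀ k, 1 ≤ K k) ∧
    Sp.Typ (S := (lb x).sp) (fun k (ω : (x k).l.T.Ω) => ∀ (i : Fin (m + 1)) (v : Mon (m + 1) D → ℝ),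
      qf ((x k).g ω) (Tm i *ᵥ v) ≤ (K k * S.dl (-(eta s D c)) k) ^ 2 * qf ((x k).g ω) v) := by
  obtain ⟨e, he, he0, hT⟩ := typ_diag (S := (lb x).sp) (fun e k (ω : (x k).l.T.Ω) =>
    ∀ (i : Fin (m + 1)) (v : Mon (m + 1) D → ℝ),
      qf ((x k).g ω) (Tm i *ᵥ v) ≤ (2 ^ ((eta s D c + e) * (S.F k).n)) ^ 2 * qf ((x k).g ω) v)
    (fun e he => (typ_iff (lb x) _).mpr
      (der_dom hx (eta s D c) (fun δ hδ => sga_eta hs hx.1 δ hδ) e he))
  refine ⟨fun k => 2 ^ (e k * (S.F k).n), Sub_pow_two he (Eventually.of_forall fun k => (he0 k).le),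
    fun k => Real.one_le_rpow (by norm_num) (mul_nonneg (he0 k).le (S.F k).pos.le), ?_⟩
  refine typ_mono hT (Eventually.of_forall fun k ω _ h1 i v => ?_)
  refine (h1 i v).trans (le_of_eq ?_)
  rw [dl_neg_eq, ← Real.rpow_add (by norm_num)]
  congr 3
  ring

/-! ### the row -/

/-- a combination of the rows -/
def rowc {n : ℕ} (ev : Fin n → Mon (m + 1) D) (τ : ℕ) (A : Matrix (Mon (m + 1) D) (Mon (m + 1) D) ℝ) :
    Mon (m + 1) D → ℝ := ∑ i : Fin n, ((τ : ℝ) ^ (i : ℕ)) • rws A (ev i)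

theorem rowc_dot {n : ℕ} (ev : Fin n → Mon (m + 1) D) (τ : ℕ) (A : Matrix (Mon (m + 1) D) (Mon (m + 1) D) ℝ)
    (w : Mon (m + 1) D → ℝ) : rowc ev τ A ⬝ᵥ w = ∑ i : Fin n, (τ : ℝ) ^ (i : ℕ) * (rws A (ev i) ⬝ᵥ w) := by
  unfold rowc
  rw [sum_dotProduct]
  refine Finset.sum_congr rfl fun i _ => ?_
  rw [smul_dotProduct, smul_eq_mul]

theorem rowc_le {q0 : ℕ} (ev : Fin (q0 + 1) ≃ Mon (m + 1) D) {τ N : ℕ} (hN : 1 ≤ N) (hτ : τ ≤ N)
    {A : Matrix (Mon (m + 1) D) (Mon (m + 1) D) ℝ} (hA : PdM A) (w : Mon (m + 1) D → ℝ) :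
    (rowc ev τ A ⬝ᵥ w) ^ 2 ≤ (((q0 + 1 : ℕ) : ℝ) * (N : ℝ) ^ q0) ^ 2 * qf A w := by
  rw [rowc_dot]
  have h1 := Finset.sum_mul_sq_le_sq_mul_sq (Finset.univ : Finset (Fin (q0 + 1))) (fun i => (τ : ℝ) ^ (i : ℕ))
    (fun i => rws A (ev i) ⬝ᵥ w)
  refine h1.trans ?_
  have h2 : ∑ i : Fin (q0 + 1), (rws A (ev i) ⬝ᵥ w) ^ 2 = qf A w := by
    rw [rws_qf hA]
    exact Equiv.sum_comp ev (fun k => (rws A k ⬝ᵥ w) ^ 2)
  have h3 : ∑ i : Fin (q0 + 1), ((τ : ℝ) ^ (i : ℕ)) ^ 2 ≤ (((q0 + 1 : ℕ) : ℝ) * (N : ℝ) ^ q0) ^ 2 := by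
    have h4 : ∀ i ∈ (Finset.univ : Finset (Fin (q0 + 1))), ((τ : ℝ) ^ (i : ℕ)) ^ 2 ≤ ((N : ℝ) ^ q0) ^ 2 := by
      intro i _
      apply pow_le_pow_left₀ (by positivity)
      exact pow_le_N hN hτ (by omega)
    have h5 := Finset.sum_le_card_nsmul _ _ _ h4
    rw [Finset.card_univ, Fintype.card_fin, nsmul_eq_mul] at h5
    refine h5.trans ?_
    rw [mul_pow]
    apply mul_le_mul_of_nonneg_right _ (by positivity)
    have h6 : (1 : ℝ) ≤ ((q0 + 1 : ℕ) : ℝ) := by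
      push_cast
      have : (0 : ℝ) ≤ q0 := Nat.cast_nonneg _
      linarith
    exact le_self_pow₀ h6 (by norm_num)
  rw [h2]
  apply mul_le_mul_of_nonneg_right h3
  rw [rws_qf hA]
  exact Finset.sum_nonneg fun k _ => sq_nonneg _

theorem le_sq_add_one (z : ℝ) : Real.sqrt z ≤ |z| + 1 := by
  rw [Real.sqrt_le_left (by positivity)]
  have h1 := le_abs_self z
  have h2 := abs_nonneg z
  have h3 : (|z| + 1) ^ 2 = |z| ^ 2 + 2 * |z| + 1 := by ring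
  have h4 : 0 ≤ |z| ^ 2 := sq_nonneg _
  rw [h3]
  linarith

/-- (T0) EXISTENCE OF THE TOP POLYNOMIAL -/
theorem exists_top (hs : RobH s) {c : ℝ} (h0 : 0 ≤ c) (h1 : c < 1) (hη : eta s D c < 1)
    {x : ∀ k, FD (S.F k) (Mon (m + 1) D)} (hx : (gau s D).Opt (cA s c) (cB s) x) (e : ℕ → Fin m → ℝ)
    (he : ∃ E : ℕ → ℝ, S.Sub E ∧ ∀ᶠ k in UF, ∀ i, |e k i| ≤ E k)
    (hJ : ∃ K : ℕ → ℝ, S.Sub K ∧ Sp.Typ (S := (lb x).sp) (fun k (ω : (x k).l.T.Ω) =>
      2 ^ (2 * eta s D c * (S.F k).n) ≤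
        K k * (e k ⬝ᵥ (Jf (S.dl 1 k) ((x k).g ω) (ptf s k ((x k).l.p.π ω)) *ᵥ e k)))) :
    ∃ q, Top (s.pull (lb x).pj) (lb x).V D c (eta s D c) e q := by
  classical
  obtain ⟨q0, hq0⟩ : ∃ q0, Fintype.card (Mon (m + 1) D) = q0 + 1 :=
    ⟨Fintype.card (Mon (m + 1) D) - 1, by have := Fintype.card_pos (α := Mon (m + 1) D); omega⟩
  obtain ⟨ev⟩ : Nonempty (Fin (q0 + 1) ≃ Mon (m + 1) D) := ⟨(Fintype.equivFinOfCardEq hq0).symm⟩
  obtain ⟨η, hηd⟩ : ∃ η, η = eta s D c := ⟨_, rfl⟩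
  rw [← hηd] at hη hJ ⊢
  obtain ⟨E, hE, hEb⟩ := he
  obtain ⟨K0, hK0, hT0⟩ := hJ
  obtain ⟨K1, hK1, hT1⟩ := ad_sub hx.1
  obtain ⟨K2, hK2, hK21, hT2⟩ := typ_dom hs hx
  rw [← hηd] at hT2
  -- the choice of the combination
  set v : ∀ k, (x k).l.T.Ω → Fin (q0 + 1) → ℝ := fun k ω i =>
    rws ((x k).g ω) (ev i) ⬝ᵥ (Wd m D (ptf s k ((x k).l.p.π ω)) *ᵥ e k) with hv
  have h2 : ∀ k, ∃ τ : ℕ, τ < NT S k ∧ (x k).l.T.pb
      (fun ω => ¬ ∀ i, |v k ω i| ≤ cGen q0 (NT S k) * |mcv q0 τ (v k ω)|) ≤ (q0 : ℝ) / (NT S k : ℝ) := by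
    intro k
    obtain ⟨τ, h3, h4⟩ := gen_fin (x k).l.T.μ (x k).l.T.nn (le_of_eq (sum_mu (x k).l.T)) q0 (NT S k)
      (one_le_NT k) (v k)
    refine ⟨τ, h3, le_trans (le_of_eq ?_) h4⟩
    rw [pb_sum]
    refine Finset.sum_congr rfl fun ω _ => ?_
    by_cases h5 : ∀ i, |v k ω i| ≤ cGen q0 (NT S k) * |mcv q0 τ (v k ω)|
    · rw [if_neg (not_not.mpr h5), if_pos h5, mul_zero]
    · rw [if_pos h5, if_neg h5, mul_one]
  choose τ hτ1 hτ2 using h2
  have hT3 : Sp.Typ (S := (lb x).sp) (fun k (ω : (x k).l.T.Ω) =>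
      ∀ i, |v k ω i| ≤ cGen q0 (NT S k) * |mcv q0 (τ k) (v k ω)|) :=
    (typ_iff (lb x) _).mpr (squeeze_zero' (Eventually.of_forall fun k => FSp.pb_nonneg _ _)
      (Eventually.of_forall hτ2) (NT_tendsto S q0 (Nat.cast_nonneg q0)))
  set q : ∀ k, (x k).l.T.Ω → Mon (m + 1) D → ℝ := fun k ω => rowc ev (τ k) ((x k).g ω) with hq
  have hcpd : ∀ᶠ k in UF, ∀ ω, (x k).l.T.μ ω ≠ 0 → PdM ((x k).g ω) ∧ Psd ((x k).g ω) := by
    filter_upwards [hx.1 1 one_pos] with k hk ω hω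
    exact ⟨(hk.2.2.1 ω hω).1.pdM, (hk.2.2.1 ω hω).1.psd⟩
  have hdm : DMc s c (lb x) := Gau.Ad.dm (gau s D) hx.1
  -- constants
  set C : ℕ → ℝ := fun k => ((q0 + 1 : ℕ) : ℝ) * (NT S k : ℝ) ^ q0 with hCd
  have hC : S.Sub C := (S.Sub_const (Nat.cast_nonneg _)).mul (Sub_pow' (NT_Sub S) q0)
  have hC0 : ∀ k, 0 ≤ C k := fun k => by rw [hCd]; positivity
  have hnn := nn_one (m + 1) D
  have hCu := Cu_one D
  have hCm := Cm_one (m + 1) D
  have hdlη : ∀ k, S.dl (-η) k * S.dl η k = 1 := dl_neg_mul S η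
  have hdlp : ∀ r k, 0 < S.dl r k := S.dl_pos
  refine ⟨q, ?_, ?_, ?_⟩
  · -- measurability
    refine Eventually.of_forall fun k ω ω' a b hV hZ => ?_
    show rowc ev (τ k) ((x k).g ω) = rowc ev (τ k) ((x k).g ω')
    rw [((x k).meas ω ω' a b hV hZ).1]
  · -- bounds
    intro L hL'
    have hL : S.Sub L := (sp_Sub (lb x)).mp hL'
    obtain ⟨K3, hK3, hT4⟩ := win_phi h0 h1 hdm (fun k ω => (x k).g ω)
      (hcpd.mono fun k hk ω hω => (hk ω hω).1)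
      (Eventually.of_forall fun k ω ω' a b hV hZ => ((x k).meas ω ω' a b hV hZ).1) 0 le_rfl
      (fun k => L k + 1) (hL.add (S.Sub_const zero_le_one))
    set R : ℕ → ℝ := fun k => (L k + 1) * (((m + 1 : ℕ) : ℝ) * K2 k) with hRd
    have hR : S.Sub R := (hL.add (S.Sub_const zero_le_one)).mul ((S.Sub_const (Nat.cast_nonneg _)).mul hK2)
    refine ⟨fun k => Cu D * Cm (m + 1) D * R k ^ D * (nn (m + 1) D * (3 * C k)) * (K3 k * K1 k + 1), ?_, ?_⟩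
    · rw [sp_Sub]
      exact ((((S.Sub_const (by linarith : (0 : ℝ) ≤ Cu D)).mul (S.Sub_const (by linarith : (0 : ℝ) ≤ Cm (m + 1) D))).mul
        (Sub_pow' hR D)).mul ((S.Sub_const (by linarith)).mul ((S.Sub_const (by norm_num)).mul hC))).mul
        ((hK3.mul hK1).add (S.Sub_const zero_le_one))
    · refine typ_mono (typ_and (typ_and hT4 hT1) hT2) ?_
      filter_upwards [hcpd, hL.1, hK3.1, hK1.1] with k hk hL0 hK30 hK10 ω hω hh r hr y hy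
      obtain ⟨⟨g1, g2⟩, g3⟩ := hh
      have hPd := (hk ω hω).1
      have hPs := (hk ω hω).2
      have hK2k := hK21 k
      have hmp : (0 : ℝ) < ((m + 1 : ℕ) : ℝ) := by positivity
      have hm1 : (1 : ℝ) ≤ ((m + 1 : ℕ) : ℝ) := by
        push_cast
        have : (0 : ℝ) ≤ m := Nat.cast_nonneg _
        linarith
      have hmK : 0 < ((m + 1 : ℕ) : ℝ) * K2 k := by positivity
      obtain ⟨p, hp⟩ : ∃ p, p = pl (s.a.v k ((x k).l.p.π ω)) (s.x.v k ((x k).l.p.π ω)) r := ⟨_, rfl⟩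
      have hr' : |r - s.t.v k ((x k).l.p.π ω) 0| ≤ (L k + 1) * S.dl (c - 0) k := by
        rw [sub_zero]
        have e1 : |r - s.t.v k ((x k).l.p.π ω) 0| ≤ L k * (lb x).sp.dl c k := hr
        rw [sp_dl (lb x) c k] at e1
        refine e1.trans ?_
        apply mul_le_mul_of_nonneg_right _ (hdlp c k).le
        linarith
      have g4 : phi (S.dl 1 k) ((x k).g ω) p ≤ K3 k * 2 ^ ((2 * D : ℕ) * (0 : ℝ) * (S.F k).n) *
          sph s D k ((x k).l.p.π ω) ((x k).g ω) := by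
        rw [hp]
        exact g1 r hr'
      have hφ0 : 0 ≤ qf ((x k).g ω) (vv p) := hPs.2 _
      have hsph0 : 0 ≤ sph s D k ((x k).l.p.π ω) ((x k).g ω) := phi_nonneg _ hPs.2 _
      have g5 : qf ((x k).g ω) (vv p) ≤ K3 k * K1 k := by
        have e1 : qf ((x k).g ω) (vv p) ≤ phi (S.dl 1 k) ((x k).g ω) p := by
          have e2 : nodp D p (S.dl 1 k) (fun _ => 0) = p := by
            funext i
            unfold nodp nod
            simp
          have e3 := Finset.single_le_sum (s := (Finset.univ : Finset (Fin (m + 1) → Fin (D + 1))))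
            (f := fun j => vv (nodp D p (S.dl 1 k) j) ⬝ᵥ ((x k).g ω *ᵥ vv (nodp D p (S.dl 1 k) j)))
            (fun j _ => hPs.2 _) (Finset.mem_univ (fun _ => 0))
          have e4 : vv (nodp D p (S.dl 1 k) (fun _ => 0)) ⬝ᵥ ((x k).g ω *ᵥ vv (nodp D p (S.dl 1 k) (fun _ => 0))) =
              qf ((x k).g ω) (vv p) := by rw [e2]; rfl
          rw [← e4]
          exact e3
        have e5 : phi (S.dl 1 k) ((x k).g ω) p ≤ K3 k * sph s D k ((x k).l.p.π ω) ((x k).g ω) := by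
          refine g4.trans (le_of_eq ?_)
          rw [mul_zero, zero_mul, Real.rpow_zero, mul_one]
        refine e1.trans (e5.trans ?_)
        exact mul_le_mul_of_nonneg_left g2 hK30
      set ρ : ℝ := S.dl η k / (((m + 1 : ℕ) : ℝ) * K2 k) with hρ
      have hρ0 : 0 < ρ := div_pos (hdlp η k) hmK
      have hB0 : 0 ≤ K2 k * S.dl (-η) k := mul_nonneg (by linarith) (hdlp _ k).le
      have hK' : ((m + 1 : ℕ) : ℝ) * (K2 k * S.dl (-η) k) * ρ ≤ 1 := by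
        apply le_of_eq
        rw [hρ]
        have a1 : ((m + 1 : ℕ) : ℝ) * (K2 k * S.dl (-η) k) * (S.dl η k / (((m + 1 : ℕ) : ℝ) * K2 k)) =
            S.dl (-η) k * S.dl η k * ((((m + 1 : ℕ) : ℝ) * K2 k) / (((m + 1 : ℕ) : ℝ) * K2 k)) := by ring
        rw [a1, hdlη k, div_self hmK.ne', one_mul]
      have hRk : 1 ≤ R k := by
        rw [hRd]
        show 1 ≤ (L k + 1) * (((m + 1 : ℕ) : ℝ) * K2 k)
        have a1 : 1 ≤ ((m + 1 : ℕ) : ℝ) * K2 k := one_le_mul_of_one_le_of_one_le hm1 hK2k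
        have a2 : 1 ≤ L k + 1 := by linarith only [hL0]
        exact one_le_mul_of_one_le_of_one_le a2 a1
      have hy' : ∀ i, |y i - p i| ≤ R k * ρ := by
        intro i
        have e1 : |y i - p i| ≤ L k * (lb x).sp.dl η k := by
          rw [hp]
          exact hy i
        rw [sp_dl (lb x) η k] at e1
        have e2 : R k * ρ = (L k + 1) * S.dl η k := by
          rw [hRd, hρ]
          field_simp
        rw [e2]
        refine e1.trans ?_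
        apply mul_le_mul_of_nonneg_right _ (hdlp η k).le
        linarith
      have g6 := row_ball hPd hPs (K2 k * S.dl (-η) k) ρ (R k) (C k) hρ0 hRk hB0 (hC0 k) g3 (q k ω)
        (fun w => rowc_le ev (one_le_NT k) (hτ1 k).le hPd w) p y hy' hK'
      refine g6.trans ?_
      have e7 : 0 ≤ Cu D * Cm (m + 1) D * R k ^ D * (nn (m + 1) D * (3 * C k)) := by
        have := hC0 k
        have : 0 ≤ R k := by linarith
        positivity
      apply mul_le_mul_of_nonneg_left _ e7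
      refine (le_sq_add_one _).trans ?_
      rw [abs_of_nonneg hφ0]
      linarith
  · -- the derivative
    set G : ℕ → ℝ := fun k => cGen q0 (NT S k) with hGd
    have hG : S.Sub G := cGen_Sub S q0
    set K4 : ℕ → ℝ := fun k => (4 * nn (m + 1) D) * ((K0 k + 1) * ((((q0 + 1 : ℕ) : ℝ)) * (G k + 1))) with hK4
    have hK4s : S.Sub K4 := (S.Sub_const (by positivity)).mul ((hK0.add (S.Sub_const zero_le_one)).mul
      ((S.Sub_const (Nat.cast_nonneg _)).mul (hG.add (S.Sub_const zero_le_one))))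
    refine ⟨K4, (sp_Sub (lb x)).mpr hK4s, ?_⟩
    -- the error of the nodes
    set Er : ℕ → ℝ := fun k => 4 * (nn (m + 1) D * (2 * (2 ^ m * (m * (E k ^ 2 * (K2 k ^ 2 *
      ((2 * (((m + 1 : ℕ) : ℝ) * K2 k)) ^ 2 * K1 k))))))) * (K0 k + 1) with hEr
    have hErs : S.Sub Er := by
      have a1 : S.Sub (fun k => (2 * (((m + 1 : ℕ) : ℝ) * K2 k)) ^ 2) :=
        Sub_pow' ((S.Sub_const (by norm_num)).mul ((S.Sub_const (Nat.cast_nonneg _)).mul hK2)) 2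
      exact ((S.Sub_const (by norm_num)).mul ((S.Sub_const (by linarith)).mul ((S.Sub_const (by norm_num)).mul
        ((S.Sub_const (by positivity)).mul ((S.Sub_const (Nat.cast_nonneg _)).mul ((Sub_pow' hE 2).mul
          ((Sub_pow' hK2 2).mul (a1.mul hK1)))))))).mul (hK0.add (S.Sub_const zero_le_one))
    have hmK2 : S.Sub (fun k => ((m + 1 : ℕ) : ℝ) * K2 k) := (S.Sub_const (Nat.cast_nonneg _)).mul hK2
    refine typ_mono (typ_and (typ_and (typ_and hT0 hT1) hT2) hT3) ?_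
    filter_upwards [hcpd, hEb, hK0.1, hK1.1, hG.1, hE.1, sub_dl hErs (show 0 < 2 * (1 - η) by linarith),
      sub_dl hmK2 (show 0 < 1 - η by linarith)] with k hk hEk hK00 hK10 hG0 hE0 hsm1 hsm2 ω hω hh
    obtain ⟨⟨⟨g0, g1⟩, g2⟩, g3⟩ := hh
    have hPd := (hk ω hω).1
    have hPs := (hk ω hω).2
    have hK2k := hK21 k
    obtain ⟨p, hp⟩ : ∃ p, p = ptf s k ((x k).l.p.π ω) := ⟨_, rfl⟩
    have hN0 : 0 < S.dl (-η) k := hdlp _ k
    have e0 : S.dl (-η) k * S.dl 1 k = S.dl (1 - η) k := by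
      rw [← Sp.dl_add]
      congr 1
      ring
    have hKr : ((m + 1 : ℕ) : ℝ) * (K2 k * S.dl (-η) k) * S.dl 1 k ≤ 1 := by
      have e1 : ((m + 1 : ℕ) : ℝ) * (K2 k * S.dl (-η) k) * S.dl 1 k =
          ((m + 1 : ℕ) : ℝ) * K2 k * S.dl (1 - η) k := by rw [← e0]; ring
      rw [e1]
      refine le_trans ?_ hsm2
      apply mul_le_mul_of_nonneg_right _ (hdlp _ k).le
      linarith
    have hφ : qf ((x k).g ω) (vv p) ≤ K1 k := by
      have e1 : qf ((x k).g ω) (vv p) ≤ phi (S.dl 1 k) ((x k).g ω) p := by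
        have e2 : nodp D p (S.dl 1 k) (fun _ => 0) = p := by
          funext i
          unfold nodp nod
          simp
        have e3 := Finset.single_le_sum (s := (Finset.univ : Finset (Fin (m + 1) → Fin (D + 1))))
          (f := fun j => vv (nodp D p (S.dl 1 k) j) ⬝ᵥ ((x k).g ω *ᵥ vv (nodp D p (S.dl 1 k) j)))
          (fun j _ => hPs.2 _) (Finset.mem_univ (fun _ => 0))
        have e4 : vv (nodp D p (S.dl 1 k) (fun _ => 0)) ⬝ᵥ ((x k).g ω *ᵥ vv (nodp D p (S.dl 1 k) (fun _ => 0))) =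
            qf ((x k).g ω) (vv p) := by rw [e2]; rfl
        rw [← e4]
        exact e3
      refine e1.trans ?_
      rw [hp]
      exact g1
    have hφ0 : 0 ≤ qf ((x k).g ω) (vv p) := hPs.2 _
    have g4 := Jf_near hPd hPs (K2 k * S.dl (-η) k) (S.dl 1 k) (E k) (hdlp 1 k).le
      (mul_nonneg (by linarith) hN0.le) g2 p (e k) hEk hKr
    have g5 : (S.dl (-η) k) ^ 2 ≤ K0 k * (e k ⬝ᵥ (Jf (S.dl 1 k) ((x k).g ω) p *ᵥ e k)) := by
      have e1 : (2 : ℝ) ^ (2 * η * (S.F k).n) = (S.dl (-η) k) ^ 2 := by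
        rw [dl_neg_eq, ← Real.rpow_natCast, ← Real.rpow_mul (by norm_num)]
        congr 1
        push_cast
        ring
      rw [← e1, hp]
      exact g0
    -- the error
    obtain ⟨W, hW⟩ : ∃ W, W = qf ((x k).g ω) (Wd m D p *ᵥ e k) := ⟨_, rfl⟩
    rw [← hW] at g4
    have hW0 : 0 ≤ W := by rw [hW]; exact hPs.2 _
    have e2 : (2 * (((m + 1 : ℕ) : ℝ) * (K2 k * S.dl (-η) k) * S.dl 1 k)) ^ 2 * qf ((x k).g ω) (vv p) ≤
        (2 * (((m + 1 : ℕ) : ℝ) * K2 k)) ^ 2 * K1 k * (S.dl (1 - η) k) ^ 2 := by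
      have e3 : (2 * (((m + 1 : ℕ) : ℝ) * (K2 k * S.dl (-η) k) * S.dl 1 k)) ^ 2 =
          (2 * (((m + 1 : ℕ) : ℝ) * K2 k)) ^ 2 * (S.dl (1 - η) k) ^ 2 := by
        rw [← e0]; ring
      rw [e3]
      have := mul_le_mul_of_nonneg_left hφ (show 0 ≤ (2 * (((m + 1 : ℕ) : ℝ) * K2 k)) ^ 2 * (S.dl (1 - η) k) ^ 2 by
        positivity)
      linarith
    have hK0J := mul_le_mul_of_nonneg_left g4 (show 0 ≤ K0 k + 1 by linarith)
    have hJ0 : 0 ≤ e k ⬝ᵥ (Jf (S.dl 1 k) ((x k).g ω) p *ᵥ e k) := Jf_nonneg _ hPs.2 _ _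
    obtain ⟨N0, hN0d⟩ : ∃ N0, N0 = S.dl (-η) k := ⟨_, rfl⟩
    obtain ⟨dd1, hdd1⟩ : ∃ dd1, dd1 = S.dl (1 - η) k := ⟨_, rfl⟩
    rw [← hN0d] at g4 g5 hN0 e2 hK0J
    rw [← hdd1] at e2
    have hdd0 : 0 < dd1 := by rw [hdd1]; exact hdlp _ k
    have e4 : dd1 ^ 2 = S.dl (2 * (1 - η)) k := by
      rw [hdd1, pow_two, ← Sp.dl_add]
      congr 1
      ring
    rw [← e4] at hsm1
    have e5 : 2 * (2 ^ m * (m * (E k ^ 2 * ((K2 k * N0) ^ 2 *
        ((2 * (((m + 1 : ℕ) : ℝ) * (K2 k * N0) * S.dl 1 k)) ^ 2 * qf ((x k).g ω) (vv p)))))) ≤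
        2 * (2 ^ m * (m * (E k ^ 2 * (K2 k ^ 2 * ((2 * (((m + 1 : ℕ) : ℝ) * K2 k)) ^ 2 * K1 k))))) * (N0 ^ 2 * dd1 ^ 2) := by
      have e6 : 0 ≤ 2 * (2 ^ m * (m * (E k ^ 2 * (K2 k * N0) ^ 2))) := by positivity
      have e7 := mul_le_mul_of_nonneg_left e2 e6
      calc _ = 2 * (2 ^ m * (m * (E k ^ 2 * (K2 k * N0) ^ 2))) *
            ((2 * (((m + 1 : ℕ) : ℝ) * (K2 k * N0) * S.dl 1 k)) ^ 2 * qf ((x k).g ω) (vv p)) := by ring
        _ ≤ 2 * (2 ^ m * (m * (E k ^ 2 * (K2 k * N0) ^ 2))) *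
            ((2 * (((m + 1 : ℕ) : ℝ) * K2 k)) ^ 2 * K1 k * dd1 ^ 2) := e7
        _ = _ := by ring
    obtain ⟨Q, hQ⟩ : ∃ Q, Q = 2 * (2 ^ m * (m * (E k ^ 2 * (K2 k ^ 2 *
      ((2 * (((m + 1 : ℕ) : ℝ) * K2 k)) ^ 2 * K1 k))))) := ⟨_, rfl⟩
    have hQ0 : 0 ≤ Q := by rw [hQ]; positivity
    rw [← hQ] at e5
    have hsm1' : 4 * (nn (m + 1) D * Q) * (K0 k + 1) * dd1 ^ 2 ≤ 1 := by
      have e8 : Er k = 4 * (nn (m + 1) D * Q) * (K0 k + 1) := by
        rw [hEr, hQ]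
      rw [e8, add_mul] at hsm1
      have e9 : 0 < dd1 ^ 2 := by positivity
      linarith only [hsm1, e9]
    have g6 : N0 ^ 2 ≤ (K0 k + 1) * (nn (m + 1) D * (2 * W + Q * (N0 ^ 2 * dd1 ^ 2))) := by
      have a1 : N0 ^ 2 ≤ (K0 k + 1) * (e k ⬝ᵥ (Jf (S.dl 1 k) ((x k).g ω) p *ᵥ e k)) := by
        refine g5.trans ?_
        apply mul_le_mul_of_nonneg_right _ hJ0
        linarith
      refine a1.trans (hK0J.trans ?_)
      apply mul_le_mul_of_nonneg_left _ (by linarith)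
      apply mul_le_mul_of_nonneg_left _ (by linarith)
      linarith
    have g7 : N0 ^ 2 ≤ 4 * nn (m + 1) D * (K0 k + 1) * W := by
      have a1 : (K0 k + 1) * (nn (m + 1) D * (Q * (N0 ^ 2 * dd1 ^ 2))) ≤ N0 ^ 2 / 4 := by
        have a2 := mul_le_mul_of_nonneg_left hsm1' (show 0 ≤ N0 ^ 2 by positivity)
        have a3 : (K0 k + 1) * (nn (m + 1) D * (Q * (N0 ^ 2 * dd1 ^ 2))) =
            N0 ^ 2 * (4 * (nn (m + 1) D * Q) * (K0 k + 1) * dd1 ^ 2) / 4 := by ring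
        rw [a3]
        linarith only [a2]
      have a4 : (K0 k + 1) * (nn (m + 1) D * (2 * W + Q * (N0 ^ 2 * dd1 ^ 2))) =
          2 * (nn (m + 1) D * (K0 k + 1) * W) + (K0 k + 1) * (nn (m + 1) D * (Q * (N0 ^ 2 * dd1 ^ 2))) := by ring
      have a5 : 0 ≤ nn (m + 1) D * (K0 k + 1) * W :=
        mul_nonneg (mul_nonneg (by linarith only [hnn]) (by linarith only [hK00])) hW0
      have a6 : 4 * nn (m + 1) D * (K0 k + 1) * W = 4 * (nn (m + 1) D * (K0 k + 1) * W) := by ring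
      have a7 : 0 ≤ N0 ^ 2 := sq_nonneg _
      rw [a4] at g6
      rw [a6]
      linarith only [g6, a1, a5, a7]
    -- the combination
    have g8 : W ≤ (((q0 + 1 : ℕ) : ℝ)) * (G k ^ 2 * (mcv q0 (τ k) (v k ω)) ^ 2) := by
      rw [hW, rws_qf hPd, ← Equiv.sum_comp ev (fun i => (rws ((x k).g ω) i ⬝ᵥ (Wd m D p *ᵥ e k)) ^ 2)]
      have a1 : ∀ i ∈ (Finset.univ : Finset (Fin (q0 + 1))),
          (rws ((x k).g ω) (ev i) ⬝ᵥ (Wd m D p *ᵥ e k)) ^ 2 ≤ G k ^ 2 * (mcv q0 (τ k) (v k ω)) ^ 2 := by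
        intro i _
        have a2 : rws ((x k).g ω) (ev i) ⬝ᵥ (Wd m D p *ᵥ e k) = v k ω i := by
          rw [hv, hp]
        rw [a2, ← mul_pow, ← sq_abs (v k ω i), ← sq_abs (G k * _), abs_mul, abs_of_nonneg hG0]
        exact pow_le_pow_left₀ (abs_nonneg _) (g3 i) 2
      have a3 := Finset.sum_le_card_nsmul _ _ _ a1
      rw [Finset.card_univ, Fintype.card_fin, nsmul_eq_mul] at a3
      exact a3
    have g9 : eval (ptf (s.pull (lb x).pj) k ω) (dir (e k) (pol (q k ω))) = mcv q0 (τ k) (v k ω) := by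
      have a0 : ptf (s.pull (lb x).pj) k ω = ptf s k ((x k).l.p.π ω) := rfl
      rw [a0, eval_dir]
      show rowc ev (τ k) ((x k).g ω) ⬝ᵥ _ = _
      rw [rowc_dot]
      rfl
    have a0 : (lb x).sp.dl η k = S.dl η k := sp_dl (lb x) η k
    rw [g9]
    show 1 ≤ K4 k * ((lb x).sp.dl η k * _)
    rw [a0]
    obtain ⟨M, hM⟩ : ∃ M, M = |mcv q0 (τ k) (v k ω)| := ⟨_, rfl⟩
    have hM0 : 0 ≤ M := by rw [hM]; exact abs_nonneg _
    have hM2 : (mcv q0 (τ k) (v k ω)) ^ 2 = M ^ 2 := by rw [hM, sq_abs]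
    rw [hM2] at g8
    rw [← hM]
    have hq1 : (1 : ℝ) ≤ ((q0 + 1 : ℕ) : ℝ) := by
      push_cast
      have : (0 : ℝ) ≤ q0 := Nat.cast_nonneg _
      linarith
    have g10 : N0 ^ 2 ≤ (K4 k * M) ^ 2 := by
      refine g7.trans ?_
      have b1 : 4 * nn (m + 1) D * (K0 k + 1) * W ≤
          4 * nn (m + 1) D * (K0 k + 1) * ((((q0 + 1 : ℕ) : ℝ)) * (G k ^ 2 * M ^ 2)) := by
        apply mul_le_mul_of_nonneg_left g8
        have : 0 ≤ K0 k + 1 := by linarith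
        positivity
      refine b1.trans ?_
      rw [mul_pow]
      have b2 : 4 * nn (m + 1) D * (K0 k + 1) * ((((q0 + 1 : ℕ) : ℝ)) * G k ^ 2) ≤ K4 k ^ 2 := by
        rw [hK4]
        show _ ≤ ((4 * nn (m + 1) D) * ((K0 k + 1) * ((((q0 + 1 : ℕ) : ℝ)) * (G k + 1)))) ^ 2
        rw [mul_pow, mul_pow, mul_pow]
        have c1 : 4 * nn (m + 1) D ≤ (4 * nn (m + 1) D) ^ 2 :=
          le_self_pow₀ (by linarith only [hnn]) (by norm_num)
        have c2 : K0 k + 1 ≤ (K0 k + 1) ^ 2 := le_self_pow₀ (by linarith only [hK00]) (by norm_num)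
        have c3 : (((q0 + 1 : ℕ) : ℝ)) ≤ (((q0 + 1 : ℕ) : ℝ)) ^ 2 := le_self_pow₀ hq1 (by norm_num)
        have c4 : G k ^ 2 ≤ (G k + 1) ^ 2 := pow_le_pow_left₀ hG0 (by linarith only [hG0]) 2
        have d1 : (((q0 + 1 : ℕ) : ℝ)) * G k ^ 2 ≤ (((q0 + 1 : ℕ) : ℝ)) ^ 2 * (G k + 1) ^ 2 :=
          mul_le_mul c3 c4 (by positivity) (by positivity)
        have d2 : (K0 k + 1) * ((((q0 + 1 : ℕ) : ℝ)) * G k ^ 2) ≤
            (K0 k + 1) ^ 2 * ((((q0 + 1 : ℕ) : ℝ)) ^ 2 * (G k + 1) ^ 2) :=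
          mul_le_mul c2 d1 (by positivity) (by positivity)
        have d3 := mul_le_mul c1 d2 (by
          have : 0 ≤ K0 k + 1 := by linarith
          positivity) (by positivity)
        linarith
      have b3 := mul_le_mul_of_nonneg_right b2 (show 0 ≤ M ^ 2 by positivity)
      linarith
    have hK4k : 0 ≤ K4 k := by
      rw [hK4]
      have : 0 ≤ K0 k + 1 := by linarith
      positivity
    have g11 : N0 ≤ K4 k * M := by
      have := abs_le_of_sq_le_sq g10 (mul_nonneg hK4k hM0)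
      rwa [abs_of_pos hN0] at this
    have b4 := hdlη k
    rw [← hN0d] at b4
    have b5 := mul_le_mul_of_nonneg_right g11 (hdlp η k).le
    have b6 : K4 k * (S.dl η k * M) = K4 k * M * S.dl η k := by ring
    rw [b6, ← b4]
    exact b5

end

end Pool.Agent.Helper11.TZ
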